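import Pool.Agent.Run7.h442.T3.Fin
import Pool.Agent.Run7.h108.GL.Nu

/-! From a law of the potential to the standardized law. -/

set_option autoImplicit false
set_option linter.unusedSectionVars false

open MeasureTheory ProbabilityTheory

namespace Run7.h108.GL.D2

/-- The uniform law on `[-c, c]`. -/
noncomputable def unif (c : ℝ) : Measure ℝ :=
  ENNReal.ofReal (1 / (2 * c)) • volume.restrict (Set.Icc (-c) c)

theorem unif_prob {c : ℝ} (hc : 0 < c) : IsProbabilityMeasure (unif c) := by
  refine ⟨?_⟩
  unfold unif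
  rw [Measure.smul_apply, Measure.restrict_apply_univ, Real.volume_Icc, smul_eq_mul,
    ← ENNReal.ofReal_mul (by positivity)]
  have : 1 / (2 * c) * (c - -c) = 1 := by field_simp; ring
  rw [this, ENNReal.ofReal_one]

theorem unif_supp (c : ℝ) : unif c (Set.Icc (-c) c)ᶜ = 0 := by
  unfold unif
  rw [Measure.smul_apply, Measure.restrict_apply measurableSet_Icc.compl]
  simp

theorem unif_atom (c a : ℝ) : unif c {a} ≠ 1 := by
  have : unif c {a} = 0 := by
    unfold unif
    rw [Measure.smul_apply, Measure.restrict_apply (measurableSet_singleton a)]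
    have h3 : volume ({a} ∩ Set.Icc (-c) c) = 0 :=
      measure_mono_null Set.inter_subset_left (by simp)
    rw [h3, smul_zero]
  rw [this]
  exact zero_ne_one

/-- the uniform law on `[-c, c]` is the image of that on `[-1, 1]` -/
theorem unif_scale (c : ℝ) (hc : 0 < c) : (unif c).map (fun s => s / c) = unif 1 := by
  have hm : Measurable fun s : ℝ => s / c := by fun_prop
  unfold unif
  rw [Measure.map_smul]
  have h1 : (volume.restrict (Set.Icc (-c) c)).map (fun s : ℝ => s / c) =
      ENNReal.ofReal c • volume.restrict (Set.Icc (-1) 1) := by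
    have h2 : Set.Icc (-c) c = (fun s : ℝ => s / c) ⁻¹' Set.Icc (-1) 1 := by
      ext s
      simp only [Set.mem_Icc, Set.mem_preimage]
      rw [le_div_iff₀ hc, div_le_iff₀ hc]
      constructor
      · rintro ⟨h3, h4⟩
        constructor <;> linarith
      · rintro ⟨h3, h4⟩
        constructor <;> linarith
    rw [h2, ← Measure.restrict_map hm measurableSet_Icc]
    have h3 : (volume : Measure ℝ).map (fun s : ℝ => s / c) = ENNReal.ofReal c • volume := by
      have h4 : (fun s : ℝ => s / c) = fun s => c⁻¹ * s := by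
        funext s
        rw [div_eq_mul_inv, mul_comm]
      rw [h4, Real.map_volume_mul_left (inv_ne_zero hc.ne'), inv_inv, abs_of_pos hc]
    rw [h3, Measure.restrict_smul]
  rw [h1, smul_smul, ← ENNReal.ofReal_mul (by positivity)]
  congr 2
  field_simp

theorem unif_mean : ∫ s, s ∂(unif 1) = 0 := by
  unfold unif
  rw [integral_smul_measure, integral_Icc_eq_integral_Ioc,
    ← intervalIntegral.integral_of_le (by linarith), integral_id]
  simp

theorem unif_sq : ∫ s, s ^ 2 ∂(unif 1) = 1 / 3 := by
  unfold unif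
  rw [integral_smul_measure, integral_Icc_eq_integral_Ioc,
    ← intervalIntegral.integral_of_le (by linarith), integral_pow,
    ENNReal.toReal_ofReal (by norm_num)]
  norm_num

theorem aux_map (ν μ : Measure ℝ) {lam : ℝ} (h : μ.map (fun s => s / lam) = ν) (m v : ℝ) :
    μ.map (fun s => (s / lam - m) / v) = ν.map fun s => (s - m) / v := by
  rw [← h, Measure.map_map (by fun_prop) (by fun_prop)]
  rfl

/-- the potential in terms of the standardized one -/
theorem trf_inf (ν : Measure ℝ) [IsProbabilityMeasure ν] (R : ℝ)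
    (hR : ν (Set.Icc (-R) R)ᶜ = 0) (hν : ∀ c, ν {c} ≠ 1) (μ : Measure ℝ) [IsProbabilityMeasure μ]
    {lam : ℝ} (h : μ.map (fun s => s / lam) = ν) (κ : Type) :
    (Measure.infinitePi fun _ : κ => μ).map (fun ω x => (ω x / lam - mean ν) / sd ν) =
      Measure.infinitePi fun _ : κ => (lawNu ν R hR hν).μ := by
  have hm : Measurable fun s : ℝ => (s / lam - mean ν) / sd ν := by fun_prop
  have e1 : μ.map (fun s => (s / lam - mean ν) / sd ν) = (lawNu ν R hR hν).μ := by
    show μ.map (fun s => (s / lam - mean ν) / sd ν) = ν.map fun s => (s - mean ν) / sd ν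
    exact aux_map ν μ h (mean ν) (sd ν)
  rw [← e1]
  exact Measure.infinitePi_map_pi (μ := fun _ : κ => μ)
    (f := fun _ s => (s / lam - mean ν) / sd ν) fun _ => hm

theorem trf_pi (ν : Measure ℝ) [IsProbabilityMeasure ν] (R : ℝ)
    (hR : ν (Set.Icc (-R) R)ᶜ = 0) (hν : ∀ c, ν {c} ≠ 1) (μ : Measure ℝ) [IsProbabilityMeasure μ]
    {lam : ℝ} (h : μ.map (fun s => s / lam) = ν) (κ : Type) [Fintype κ] :
    (Measure.pi fun _ : κ => μ).map (fun ω x => (ω x / lam - mean ν) / sd ν) =
      Measure.pi fun _ : κ => (lawNu ν R hR hν).μ := by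
  have hm : Measurable fun s : ℝ => (s / lam - mean ν) / sd ν := by fun_prop
  have e1 : μ.map (fun s => (s / lam - mean ν) / sd ν) = (lawNu ν R hR hν).μ := by
    show μ.map (fun s => (s / lam - mean ν) / sd ν) = ν.map fun s => (s - mean ν) / sd ν
    exact aux_map ν μ h (mean ν) (sd ν)
  have hp : IsProbabilityMeasure (μ.map fun s => (s / lam - mean ν) / sd ν) :=
    Measure.isProbabilityMeasure_map hm.aemeasurable
  rw [← e1]
  exact Measure.pi_map_pi (μ := fun _ : κ => μ)
    (f := fun _ s => (s / lam - mean ν) / sd ν) fun _ => hm.aemeasurable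

end Run7.h108.GL.D2
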