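import Pool.Agent.Run7.h442.T3.Par
import Pool.Agent.Run7.h442.T2.Apr

/-! Bounded laws: A priori bounds in dimension two. -/

set_option autoImplicit false
set_option linter.unusedSectionVars false

open scoped BigOperators Matrix
open MeasureTheory

namespace Run7.h108.GL.D2

open Pool.Agent.Run7.h47 hiding Hyp good
  HJ_bd HS_bd J_comp K1 S_comp Sw_int apr bessel dos_lim err_le free0 free1 free1_im free2
  inst kap_ex kap_le lad mJ mJ_bd mJ_pos mJ_unif mS_bd mS_cont mS_pos mS_unif num_lim par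
  qdiff rho_lim size_ex spread tor_all tor_lim vel_lim w_lim z_lim
open Pool.Agent.Run7.h442.T2
open Pool.Agent.W788.MFP.Four Pool.Agent.W788.BK
open Pool.Agent.W788.MFP.Form hiding form1
open Pool.Agent.W788.MFP.Dos

variable [Law]

/-- the bootstrap step -/
theorem core {d L : ℕ} [NeZero L] {σ E t C ε' ε : ℝ} (ht : 0 < t) (hσ0 : 0 < σ ^ 2)
    (htu : t ≤ σ ^ 2) (hC : 1 ≤ C) (hmf : ‖mf d L σ E t‖ ≤ C) (hε'0 : 0 ≤ ε') (hε0 : 0 < ε)
    (hε1 : ε ≤ 1) (hε' : 4 * C * (2 + 2 * C) ^ 2 * ε' ≤ ε ^ 2)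
    (hV1 : V1 d L σ E t ≤ ε' * (t / σ ^ 2) ^ 3 * (1 + (mm d L σ E t).im ^ 2)) :
    (mm d L σ E t).im ≤ 2 * C + 1 ∧
    ‖mm d L σ E t - mf d L σ E t‖ ≤ ε * (t / σ ^ 2) ∧
    ‖mm d L σ E t‖ ≤ C + 1 ∧
    ε' * (1 + (mm d L σ E t).im ^ 2) ≤ ε ^ 2 ∧
    ‖ze d L σ E t - E‖ ≤ (C + 2) * σ ^ 2 := by
  set r : ℝ := t / σ ^ 2 with hr
  have hr0 : 0 < r := by positivity
  have hr1 : r ≤ 1 := by
    rw [hr, div_le_one hσ0]
    exact htu
  have hζ0 := ze_pos (d := d) (L := L) (σ := σ) (E := E) ht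
  have hmfi : (mf d L σ E t).im ≤ C := ((le_abs_self _).trans (Complex.abs_im_le_norm _)).trans hmf
  have hmf0 : 0 ≤ (mf d L σ E t).im := GG_im_nonneg hζ0
  set X := (mm d L σ E t).im with hX
  have hX0 : 0 ≤ X := mm_im_nonneg ht
  have hdiff : ‖mm d L σ E t - mf d L σ E t‖ ^ 2 ≤ C * ε' * r ^ 2 * (1 + X ^ 2) := by
    refine (m_sub ht).trans ?_
    have h1 : g2 d L σ E t * X ≤ C / σ ^ 2 := by
      unfold g2
      have h2 : σ ^ 2 * X ≤ (ze d L σ E t).im := by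
        rw [ze_im]
        linarith
      rw [div_mul_eq_mul_div, div_le_div_iff₀ hζ0 hσ0]
      calc (mf d L σ E t).im * X * σ ^ 2 = (mf d L σ E t).im * (σ ^ 2 * X) := by ring
        _ ≤ C * (ze d L σ E t).im :=
            mul_le_mul hmfi h2 (by positivity) (by linarith)
    have hV0 := V1_nonneg (d := d) (L := L) (σ := σ) (E := E) (t := t)
    calc σ ^ 4 * (g2 d L σ E t * V1 d L σ E t) * (X / t) =
        σ ^ 4 / t * V1 d L σ E t * (g2 d L σ E t * X) := by ring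
      _ ≤ σ ^ 4 / t * (ε' * r ^ 3 * (1 + X ^ 2)) * (C / σ ^ 2) := by
          have h5 : 0 ≤ g2 d L σ E t * X := mul_nonneg (g2_nonneg ht) hX0
          have h6 : 0 ≤ ε' * r ^ 3 * (1 + X ^ 2) := by positivity
          gcongr
      _ = C * ε' * r ^ 2 * (1 + X ^ 2) := by
          rw [hr]
          field_simp
  have hq : C * ε' ≤ (ε / (2 * (2 + 2 * C))) ^ 2 := by
    rw [div_pow, le_div_iff₀ (by positivity)]
    calc C * ε' * (2 * (2 + 2 * C)) ^ 2 = 4 * C * (2 + 2 * C) ^ 2 * ε' := by ring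
      _ ≤ ε ^ 2 := hε'
  have hdiff2 : ‖mm d L σ E t - mf d L σ E t‖ ≤ ε / (2 * (2 + 2 * C)) * r * (1 + X) := by
    refine abs_le_of_sq_le_sq' ?_ (by positivity) |>.2
    refine hdiff.trans ?_
    calc C * ε' * r ^ 2 * (1 + X ^ 2) ≤ (ε / (2 * (2 + 2 * C))) ^ 2 * r ^ 2 * (1 + X) ^ 2 := by
          have h1 : 1 + X ^ 2 ≤ (1 + X) ^ 2 := by nlinarith
          gcongr
      _ = _ := by ring
  have hXle : X ≤ 2 * C + 1 := by
    have h1 : X - (mf d L σ E t).im ≤ ‖mm d L σ E t - mf d L σ E t‖ := by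
      rw [hX, ← Complex.sub_im]
      exact (le_abs_self _).trans (Complex.abs_im_le_norm _)
    have h2 : ε / (2 * (2 + 2 * C)) * r * (1 + X) ≤ 1 / 2 * (1 + X) := by
      refine mul_le_mul_of_nonneg_right ?_ (by positivity)
      have h3 : ε / (2 * (2 + 2 * C)) ≤ 1 / 2 := by
        rw [div_le_div_iff₀ (by positivity) (by norm_num)]
        nlinarith
      calc ε / (2 * (2 + 2 * C)) * r ≤ 1 / 2 * 1 := mul_le_mul h3 hr1 hr0.le (by norm_num)
        _ = 1 / 2 := by norm_num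
    linarith
  have hm1 : ‖mm d L σ E t - mf d L σ E t‖ ≤ ε * r := by
    refine hdiff2.trans ?_
    calc ε / (2 * (2 + 2 * C)) * r * (1 + X) ≤
        ε / (2 * (2 + 2 * C)) * r * (1 + (2 * C + 1)) := by gcongr
      _ = ε * r / 2 := by
          field_simp
          ring
      _ ≤ ε * r := by
          have : 0 ≤ ε * r := by positivity
          linarith
  have h1X : ε' * (1 + X ^ 2) ≤ ε ^ 2 := by
    have h1 : 1 + X ^ 2 ≤ 4 * C * (2 + 2 * C) ^ 2 := by nlinarith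
    calc ε' * (1 + X ^ 2) ≤ ε' * (4 * C * (2 + 2 * C) ^ 2) := by gcongr
      _ = 4 * C * (2 + 2 * C) ^ 2 * ε' := by ring
      _ ≤ ε ^ 2 := hε'
  have hmn : ‖mm d L σ E t‖ ≤ C + 1 := by
    have h1 : ‖mm d L σ E t‖ ≤ ‖mm d L σ E t - mf d L σ E t‖ + ‖mf d L σ E t‖ := by
      have := norm_add_le (mm d L σ E t - mf d L σ E t) (mf d L σ E t)
      rwa [sub_add_cancel] at this
    have h2 : ε * r ≤ 1 := by nlinarith
    linarith
  refine ⟨hXle, hm1, hmn, h1X, ?_⟩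
  have h1 : ze d L σ E t - E = (t : ℂ) * Complex.I + (σ : ℂ) ^ 2 * mm d L σ E t := by
    unfold ze
    ring
  rw [h1]
  refine (norm_add_le _ _).trans ?_
  rw [norm_mul, norm_mul, Complex.norm_I, mul_one, norm_pow, Complex.norm_real,
    Complex.norm_real, Real.norm_of_nonneg ht.le, Real.norm_eq_abs, sq_abs]
  calc t + σ ^ 2 * ‖mm d L σ E t‖ ≤ σ ^ 2 + σ ^ 2 * (C + 1) := by gcongr
    _ = _ := by ring

/-- the a priori bounds -/
theorem apr (ka : ℝ) (hka : 0 < ka) (hka1 : ka ≤ 1) (κ : ℝ) (hκ0 : 0 < κ) (hκ1 : κ < 2 / 15)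
    (ε : ℝ) (hε : 0 < ε) (hε1 : ε ≤ 1) :
    ∃ s : ℝ, 0 < s ∧ s ≤ 1 / 5 ∧ ∀ (σ E t : ℝ) (L : ℕ) [NeZero L], Odd L → Bulk ka E →
      0 < |σ| → |σ| ≤ s →
      |σ| ^ (2 + κ) ≤ t → t ≤ σ ^ 2 → (|σ| ^ 12)⁻¹ ≤ (L : ℝ) → (L : ℝ) ≤ 2 * (|σ| ^ 12)⁻¹ →
      (mm 2 L σ E t).im ≤ 2 * CC ka + 1 ∧
      (ze 2 L σ E t).im ≤ 1 ∧
      ‖mm 2 L σ E t - mf 2 L σ E t‖ ≤ ε * (t / σ ^ 2) ∧
      V1 2 L σ E t ≤ ε * (t / σ ^ 2) ^ 3 ∧
      (∀ p : T 2 L, t ^ 2 * V2 σ E t p ≤ ε * (t / σ ^ 2) ^ 3) ∧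
      er 2 L (ze 2 L σ E t).im ≤ ε ∧
      ‖ze 2 L σ E t - E‖ ≤ (CC ka + 2) * σ ^ 2 ∧
      Near ka E (ze 2 L σ E t) ∧
      ‖mf 2 L σ E t‖ ≤ CC ka := by
  have hC0 := CC_ge hka
  have hC32 := C32_nonneg
  obtain ⟨β, hβ0, hβ1, hpar⟩ := par ka hka hka1 κ hκ0 hκ1
  set ε' : ℝ := ε ^ 2 / (4 * CC ka * (2 + 2 * CC ka) ^ 2) with hε'
  have hε'0 : 0 < ε' := by positivity
  have hε'1 : 4 * CC ka * (2 + 2 * CC ka) ^ 2 * ε' = ε ^ 2 := by
    rw [hε']
    field_simp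
  have hεe : ε ^ 2 ≤ ε := by nlinarith
  have hε'2 : ε' ≤ ε ^ 2 := by
    rw [← hε'1]
    have h1 : 1 ≤ 4 * CC ka * (2 + 2 * CC ka) ^ 2 := by nlinarith
    nlinarith
  have hε'3 : ε' ≤ 1 := by linarith
  set α : ℝ := β / 16 with hα
  have hα0 : 0 < α := by positivity
  have hα1 : α ≤ 1 := by rw [hα]; linarith
  have hCa := Ca_nonneg α
  set KA : ℝ := 2 + 36 * Ca α with hKA
  have hKA1 : 1 ≤ KA := by rw [hKA]; linarith
  obtain ⟨s1, hs1, hs1', H1⟩ := hpar ε' hε'0 hε'3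
  obtain ⟨s2, hs2, H2⟩ := small_pow (768 * Real.pi * (2 : ℕ)) 7 ε (by norm_num) hε
  obtain ⟨s3, hs3, H3⟩ := small_pow (64 * KA ^ 3) (7 * α) 1 (by positivity) one_pos
  obtain ⟨s4, hs4, H4⟩ := small_pow (3 * KA) 1 (ka / 2) one_pos (by positivity)
  refine ⟨min (min s1 s2) (min s3 s4), by positivity,
    ((min_le_left _ _).trans (min_le_left _ _)).trans hs1', ?_⟩
  intro σ E t L _ hodd hE hσ hσs htl htu hL1 hL2
  have hσ1 : |σ| ≤ s1 := hσs.trans ((min_le_left _ _).trans (min_le_left _ _))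
  have hσ2 : |σ| ≤ s2 := hσs.trans ((min_le_left _ _).trans (min_le_right _ _))
  have hσ3 : |σ| ≤ s3 := hσs.trans ((min_le_right _ _).trans (min_le_left _ _))
  have hσ4 : |σ| ≤ s4 := hσs.trans ((min_le_right _ _).trans (min_le_right _ _))
  obtain ⟨hV1, hV2⟩ := H1 σ E t L hodd hE hσ hσ1 htl htu hL1 hL2
  set x : ℝ := |σ| with hx
  have hx1 : x ≤ 1 := by linarith
  have hσx : σ ^ 2 = x ^ 2 := (sq_abs σ).symm
  have ht : 0 < t := (Real.rpow_pos_of_pos hσ _).trans_le htl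
  have hσ0 : 0 < σ ^ 2 := by rw [hσx]; positivity
  have hxβ0 : 0 < x ^ β := Real.rpow_pos_of_pos hσ _
  have hxβ1 : x ^ β ≤ 1 := Real.rpow_le_one hσ.le hx1 hβ0.le
  have hL0 : (0 : ℝ) < L := lt_of_lt_of_le (by positivity) hL1
  have her : er 2 L (ze 2 L σ E t).im ≤ ε := by
    refine (er_anti ht (ze_im_ge ht)).trans ?_
    have h1 := H2 x hσ hσ2
    refine le_trans ?_ h1
    unfold er
    have h2 : 12 * (16 * Real.pi * (2 : ℕ) / L) / (t / 2) ^ 2 =
        768 * Real.pi * (2 : ℕ) * (1 / (L * t ^ 2)) := by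
      field_simp
      ring
    rw [h2]
    refine mul_le_mul_of_nonneg_left ?_ (by have := Real.pi_pos; positivity)
    have h3 : x ^ (5 : ℝ) ≤ t ^ 2 := by
      calc x ^ (5 : ℝ) ≤ x ^ (2 * (2 + κ)) := pow_cmp hσ hx1 (by linarith)
        _ = (x ^ (2 + κ)) ^ 2 := by
            rw [← Real.rpow_natCast, ← Real.rpow_mul hσ.le]
            congr 1
            push_cast
            ring
        _ ≤ t ^ 2 := pow_le_pow_left₀ (by positivity) htl 2
    have h5 : x ^ (5 : ℝ) = x ^ 5 := by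
      rw [← Real.rpow_natCast]
      norm_num
    have h7 : x ^ (7 : ℝ) = x ^ 7 := by
      rw [← Real.rpow_natCast]
      norm_num
    rw [h5] at h3
    rw [h7, div_le_iff₀ (by positivity)]
    calc (1 : ℝ) = x ^ 7 * ((x ^ 12)⁻¹ * x ^ 5) := by field_simp
      _ ≤ x ^ 7 * (L * t ^ 2) := by gcongr
  have hζ0 := ze_pos (d := 2) (L := L) (σ := σ) (E := E) ht
  have hV0 := V1_nonneg (d := 2) (L := L) (σ := σ) (E := E) (t := t)
  -- the first stage
  set CA : ℝ := KA * x ^ (-(3 * α)) with hCA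
  have hxa1 : 1 ≤ x ^ (-(3 * α)) := by
    rw [Real.rpow_neg hσ.le]
    exact (one_le_inv₀ (by positivity)).2 (Real.rpow_le_one hσ.le hx1 (by positivity))
  have hCA1 : 1 ≤ CA := by
    rw [hCA]
    nlinarith
  have hmfA : ‖mf 2 L σ E t‖ ≤ CA := by
    rcases le_or_gt (ze 2 L σ E t).im 1 with h | h
    · have h1 := freeA α hα0 hα1 L hζ0 h
      have h2 : x ^ (3 : ℝ) ≤ t := by
        refine le_trans ?_ htl
        exact pow_cmp hσ hx1 (by linarith)
      have h3 : x ^ (3 : ℝ) / 2 ≤ (ze 2 L σ E t).im / 2 := by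
        have := ze_im_ge (d := 2) (L := L) (σ := σ) (E := E) ht
        linarith
      have h4 : ((ze 2 L σ E t).im / 2) ^ (-α) ≤ 2 * x ^ (-(3 * α)) := by
        calc ((ze 2 L σ E t).im / 2) ^ (-α) ≤ (x ^ (3 : ℝ) / 2) ^ (-α) :=
              Real.rpow_le_rpow_of_nonpos (by positivity) h3 (by linarith)
          _ = x ^ (-(3 * α)) * (2 : ℝ) ^ α := by
              rw [Real.div_rpow (by positivity) (by norm_num), ← Real.rpow_mul hσ.le,
                Real.rpow_neg (by norm_num : (0 : ℝ) ≤ 2), div_inv_eq_mul]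
              congr 2
              ring
          _ ≤ x ^ (-(3 * α)) * 2 := by
              refine mul_le_mul_of_nonneg_left ?_ (by positivity)
              calc (2 : ℝ) ^ α ≤ 2 ^ (1 : ℝ) :=
                    Real.rpow_le_rpow_of_exponent_le (by norm_num) hα1
                _ = 2 := Real.rpow_one 2
          _ = _ := by ring
      have h5 : 18 * Ca α * ((ze 2 L σ E t).im / 2) ^ (-α) ≤
          18 * Ca α * (2 * x ^ (-(3 * α))) := by gcongr
      have h6 : ‖mf 2 L σ E t‖ ≤ 1 + 18 * Ca α * (2 * x ^ (-(3 * α))) := by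
        unfold mf
        linarith
      refine h6.trans ?_
      rw [hCA, hKA]
      nlinarith
    · have h1 := GG_le (d := 2) (L := L) hζ0
      have h2 : ((ze 2 L σ E t).im)⁻¹ ≤ 1 := inv_le_one_of_one_le₀ h.le
      unfold mf
      linarith
  have hsm : 4 * CA * (2 + 2 * CA) ^ 2 * (ε' * x ^ β) ≤ 1 ^ 2 := by
    have h1 : (2 + 2 * CA) ^ 2 ≤ (4 * CA) ^ 2 := pow_le_pow_left₀ (by linarith) (by linarith) 2
    have h2 : CA ^ 3 = KA ^ 3 * x ^ (-(9 * α)) := by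
      rw [hCA, mul_pow, ← Real.rpow_natCast (x ^ (-(3 * α))), ← Real.rpow_mul hσ.le]
      congr 2
      push_cast
      ring
    have h3 : x ^ (-(9 * α)) * x ^ β = x ^ (7 * α) := by
      rw [← Real.rpow_add hσ]
      congr 1
      rw [hα]
      ring
    calc 4 * CA * (2 + 2 * CA) ^ 2 * (ε' * x ^ β) ≤ 4 * CA * (4 * CA) ^ 2 * (1 * x ^ β) := by
          gcongr
      _ = 64 * KA ^ 3 * (x ^ (-(9 * α)) * x ^ β) := by
          rw [← mul_assoc, mul_one]
          linear_combination 64 * x ^ β * h2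
      _ = 64 * KA ^ 3 * x ^ (7 * α) := by rw [h3]
      _ ≤ 1 := H3 x hσ hσ3
      _ = 1 ^ 2 := by norm_num
  have hst1 := core (ε := 1) ht hσ0 htu hCA1 hmfA (by positivity : 0 ≤ ε' * x ^ β) one_pos le_rfl
    hsm hV1
  have hnear : Near ka E (ze 2 L σ E t) := by
    refine ⟨hka, hka1, hE, hζ0.le, hst1.2.2.2.2.trans ?_⟩
    have h1 := H4 x hσ hσ4
    rw [Real.rpow_one] at h1
    calc (CA + 2) * σ ^ 2 ≤ (3 * CA) * x ^ 2 := by
          rw [hσx]
          refine mul_le_mul_of_nonneg_right (by linarith) (by positivity)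
      _ = 3 * KA * (x ^ (-(3 * α)) * x ^ 2) := by
          rw [hCA]
          ring
      _ ≤ 3 * KA * x := by
          refine mul_le_mul_of_nonneg_left ?_ (by linarith)
          calc x ^ (-(3 * α)) * x ^ 2 = x ^ (2 - 3 * α) := by
                rw [← Real.rpow_natCast, ← Real.rpow_add hσ]
                congr 1
                push_cast
                ring
            _ ≤ x ^ (1 : ℝ) := pow_cmp hσ hx1 (by
                rw [hα]
                linarith)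
            _ = x := Real.rpow_one x
      _ ≤ ka / 2 := h1
  have hζ1 : (ze 2 L σ E t).im ≤ 1 := by
    have h1 := Complex.abs_im_le_norm (ze 2 L σ E t - E)
    simp only [Complex.sub_im, Complex.ofReal_im, sub_zero] at h1
    have h2 := hnear.hd
    have h4 := le_abs_self (ze 2 L σ E t).im
    linarith
  -- the second stage
  have hmf : ‖mf 2 L σ E t‖ ≤ CC ka := by
    have h1 := free0 L hζ0 hζ1 hnear
    unfold mf CC
    linarith
  have hV1' : V1 2 L σ E t ≤ ε' * (t / σ ^ 2) ^ 3 * (1 + (mm 2 L σ E t).im ^ 2) := by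
    refine hV1.trans ?_
    have h1 : ε' * x ^ β ≤ ε' := mul_le_of_le_one_right hε'0.le hxβ1
    gcongr
  obtain ⟨c1, c2, c3, c4, c5⟩ := core ht hσ0 htu hC0 hmf hε'0.le hε hε1 hε'1.le hV1'
  have hr0 : 0 < t / σ ^ 2 := by positivity
  have hVV : ε' * x ^ β * (t / σ ^ 2) ^ 3 * (1 + (mm 2 L σ E t).im ^ 2) ≤
      ε * (t / σ ^ 2) ^ 3 := by
    have h1 : ε' * x ^ β ≤ ε' := mul_le_of_le_one_right hε'0.le hxβ1
    calc ε' * x ^ β * (t / σ ^ 2) ^ 3 * (1 + (mm 2 L σ E t).im ^ 2) ≤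
        ε' * (t / σ ^ 2) ^ 3 * (1 + (mm 2 L σ E t).im ^ 2) := by gcongr
      _ = (ε' * (1 + (mm 2 L σ E t).im ^ 2)) * (t / σ ^ 2) ^ 3 := by ring
      _ ≤ ε * (t / σ ^ 2) ^ 3 := by
          refine mul_le_mul_of_nonneg_right (c4.trans hεe) (by positivity)
  exact ⟨c1, hζ1, c2, hV1.trans hVV, fun p => (hV2 p).trans hVV, her, c5, hnear, hmf⟩

end Run7.h108.GL.D2
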