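import Pool.Agent.Run7.h442.T3.Spr
import Pool.Agent.Run7.h442.T2.Few

/-! Bounded laws: the mean of the square of the potential. -/

set_option autoImplicit false

open scoped BigOperators Matrix Topology
open MeasureTheory ProbabilityTheory

namespace Run7.h108.GL.D2

open Pool.Agent.W788.MFP.Four Pool.Agent.W788.BK

variable {d L : ℕ} [NeZero L] [Law]

/-- the mean of the square of the potential -/
theorem sq_mean : Integrable (fun V : T d L → ℝ => ∑ x, V x ^ 2) (Γ (T d L)) ∧
    ∫ V : T d L → ℝ, ∑ x, V x ^ 2 ∂(Γ (T d L)) = NN d L := by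
  have h0 : Integrable (fun s : ℝ => s ^ 2) Law.μ := by
    refine Integrable.of_bound (C := Law.b ^ 2) (by fun_prop) ?_
    filter_upwards [Law.bd] with s hs
    rw [Real.norm_eq_abs, abs_pow]
    exact pow_le_pow_left₀ (abs_nonneg _) hs 2
  have h1 : ∀ x : T d L, Integrable (fun V : T d L → ℝ => V x ^ 2) (Γ (T d L)) := fun x =>
    ((measurePreserving_eval (fun _ : T d L => Law.μ) x).integrable_comp_of_integrable h0)
  have h2 : ∀ x : T d L, ∫ V : T d L → ℝ, V x ^ 2 ∂(Γ (T d L)) = 1 := by
    intro x
    have h3 := (measurePreserving_eval (fun _ : T d L => Law.μ) x).map_eq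
    rw [← Law.var]
    conv_rhs => rw [← h3]
    rw [integral_map (measurable_pi_apply x).aemeasurable (by fun_prop)]
  refine ⟨integrable_finsetSum _ fun x _ => h1 x, ?_⟩
  rw [integral_finsetSum _ fun x _ => h1 x]
  simp only [h2]
  rw [Finset.sum_const, Finset.card_univ, nsmul_eq_mul, mul_one, card_T]

end Run7.h108.GL.D2
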