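import Pool.Agent.Run7.h442.T3.Zm
import Pool.Agent.Run7.h442.T2.Fin

/-! Bounded laws: Quantum diffusion in dimension two, with explicit functions. -/

set_option autoImplicit false
set_option linter.unusedSectionVars false

open scoped BigOperators Topology
open MeasureTheory ProbabilityTheory Filter

namespace Run7.h108.GL.D2

open Pool.Agent.Run7.h47 hiding Hyp good
  HJ_bd HS_bd J_comp K1 S_comp Sw_int apr bessel dos_lim err_le free0 free1 free1_im free2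
  inst kap_ex kap_le lad mJ mJ_bd mJ_pos mJ_unif mS_bd mS_cont mS_pos mS_unif num_lim par
  qdiff rho_lim size_ex spread tor_all tor_lim vel_lim w_lim z_lim
open Pool.Agent.Run7.h442.T2
open Pool.Agent.H4R2.LO (Zd)


/-- the density of states -/
noncomputable def rr (E : ℝ) : ℝ := (mJ E).re / Real.pi

/-- the mean square velocity -/
noncomputable def ww (E : ℝ) : ℝ := (mS 2 E).re / Real.pi

theorem base (a b : ℝ) (ha : 0 < a) (hb : b < 4) (E : ℝ) (hE1 : a ≤ |E|) (hE2 : |E| ≤ b) :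
    0 < rr E ∧ 0 < ww E ∧
        Tendsto (fun η : ℝ => Real.pi⁻¹ * ((2 * Real.pi) ^ 2)⁻¹ *
          ∫ k in Set.Icc (0 : Fin 2 → ℝ) (fun _ => 2 * Real.pi),
            η / ((∑ i, 2 * Real.cos (k i) - E) ^ 2 + η ^ 2)) (𝓝[>] 0) (𝓝 (rr E)) ∧
        Tendsto (fun η : ℝ => Real.pi⁻¹ * ((2 * Real.pi) ^ 2)⁻¹ *
          ∫ k in Set.Icc (0 : Fin 2 → ℝ) (fun _ => 2 * Real.pi),
            ((∑ i, (2 * Real.sin (k i)) ^ 2) / 2) *
            (η / ((∑ i, 2 * Real.cos (k i) - E) ^ 2 + η ^ 2))) (𝓝[>] 0) (𝓝 (ww E)) := by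
  have hpi := Real.pi_pos
  obtain ⟨ka, hkad⟩ : ∃ ka, ka = min (min a (4 - b)) 1 := ⟨_, rfl⟩
  have hka : 0 < ka := by
    rw [hkad]
    exact lt_min (lt_min ha (by linarith)) one_pos
  have hka1 : ka ≤ 1 := by rw [hkad]; exact min_le_right _ _
  have h3 : ka ≤ a := by rw [hkad]; exact (min_le_left _ _).trans (min_le_left _ _)
  have h4 : ka ≤ 4 - b := by rw [hkad]; exact (min_le_left _ _).trans (min_le_right _ _)
  have hE : Bulk ka E := ⟨h3.trans hE1, by linarith⟩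
  obtain ⟨c0, hc0, hJ⟩ := mJ_unif hka hka1
  have hS : 0 < (mS 2 E).re := mS_pos E (by
    have := hE.2
    linarith)
  exact ⟨div_pos (hc0.trans_le (hJ E hE)) hpi, div_pos hS hpi, rho_lim hka hka1 hE, w_lim E⟩

/-- **quantum diffusion** -/
theorem qd [Law] (a b : ℝ) (ha : 0 < a) (hb : b < 4) (κ : ℝ) (hκ0 : 0 < κ) (hκ : κ < 2 / 15)
    (M ε : ℝ) (hM : 0 ≤ M) (hε : 0 < ε) :
    ∃ s : ℝ, 0 < s ∧ ∀ σ E t : ℝ, 0 < |σ| → |σ| ≤ s → a ≤ |E| → |E| ≤ b →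
        |σ| ^ (2 + κ) ≤ t → t ≤ s * σ ^ 2 → ∀ P : Fin 2 → ℝ, (∀ i, |P i| ≤ M) →
        ∀ G : (Zd 2 → ℝ) → Zd 2 → ℂ,
        (∀ ω, IsGreen 2 σ ((E : ℂ) + (t : ℂ) * Complex.I) ω (G ω)) →
        Integrable (fun ω => ‖(t : ℂ) * (∑' x : Zd 2,
          Complex.exp (Complex.I * ((∑ i, |σ| * Real.sqrt t * P i * x i : ℝ) : ℂ)) *
            ((‖G ω x‖ ^ 2 : ℝ) : ℂ)) -
          ((Real.pi * rr E / (1 + (∑ i, P i ^ 2) * (ww E / (4 * Real.pi * rr E ^ 2))) : ℝ) : ℂ)‖ ^ 2)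
          (Measure.infinitePi fun _ : Zd 2 => Law.μ) ∧
        ∫ ω, ‖(t : ℂ) * (∑' x : Zd 2,
          Complex.exp (Complex.I * ((∑ i, |σ| * Real.sqrt t * P i * x i : ℝ) : ℂ)) *
            ((‖G ω x‖ ^ 2 : ℝ) : ℂ)) -
          ((Real.pi * rr E / (1 + (∑ i, P i ^ 2) * (ww E / (4 * Real.pi * rr E ^ 2))) : ℝ) : ℂ)‖ ^ 2
          ∂(Measure.infinitePi fun _ : Zd 2 => Law.μ) ≤ ε := by
  have hpi := Real.pi_pos
  obtain ⟨ka, hkad⟩ : ∃ ka, ka = min (min a (4 - b)) 1 := ⟨_, rfl⟩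
  have hka : 0 < ka := by
    rw [hkad]
    exact lt_min (lt_min ha (by linarith)) one_pos
  have hka1 : ka ≤ 1 := by rw [hkad]; exact min_le_right _ _
  have hB : ∀ E : ℝ, a ≤ |E| → |E| ≤ b → Bulk ka E := by
    intro E h1 h2
    have h3 : ka ≤ a := by rw [hkad]; exact (min_le_left _ _).trans (min_le_left _ _)
    have h4 : ka ≤ 4 - b := by rw [hkad]; exact (min_le_left _ _).trans (min_le_right _ _)
    exact ⟨h3.trans h1, by linarith⟩
  obtain ⟨c0, hc0, hJ⟩ := mJ_unif hka hka1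
  have hS : ∀ E : ℝ, Bulk ka E → 0 < (mS 2 E).re := fun E hE => mS_pos E (by
    have := hE.2
    linarith)
  obtain ⟨s, hs, _, H⟩ := z_lim ka hka hka1 κ hκ0 hκ c0 hc0 hJ (fun E hE => (hS E hE).le) M hM ε hε
  refine ⟨s, hs, ?_⟩
  intro σ E t hσ hσs hE1 hE2 htl htu P hP G hG
  have hE := hB E hE1 hE2
  obtain ⟨_, h1, h2⟩ := H σ E t hσ hσs hE htl htu P hP G hG
  have hJ0 : 0 < (mJ E).re := hc0.trans_le (hJ E hE)
  have hS0 := hS E hE
  have e1 : Real.pi * rr E / (1 + (∑ i, P i ^ 2) *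
      (ww E / (4 * Real.pi * rr E ^ 2))) =
      Dl (mJ E).re (mS 2 E).re (∑ i, P i ^ 2) := by
    have hq : 0 ≤ ∑ i, P i ^ 2 := by positivity
    unfold Dl rr ww
    have h3 : 1 / (mJ E).re + (∑ i, P i ^ 2) * (mS 2 E).re / (4 * (mJ E).re ^ 3) =
        (1 + (∑ i, P i ^ 2) * ((mS 2 E).re / Real.pi /
          (4 * Real.pi * ((mJ E).re / Real.pi) ^ 2))) / (mJ E).re := by
      field_simp
    rw [h3, one_div_div]
    congr 1
    field_simp
  rw [e1]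
  exact ⟨h1, h2⟩

end Run7.h108.GL.D2
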