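import Pool.Agent.Run7.h442.T3.Apr
import Pool.Agent.Run7.h442.T2.Lim
import Pool.Agent.Run7.h108.GL.Lim

/-! Bounded laws: The limit of the ladder on the torus in dimension two. -/

set_option autoImplicit false
set_option linter.unusedSectionVars false

open scoped BigOperators Matrix
open MeasureTheory

namespace Run7.h108.GL.D2

open Pool.Agent.Run7.h47 hiding Hyp good
  HJ_bd HS_bd J_comp K1 S_comp Sw_int apr bessel dos_lim err_le free0 free1 free1_im free2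
  inst kap_ex kap_le lad mJ mJ_bd mJ_pos mJ_unif mS_bd mS_cont mS_pos mS_unif num_lim par
  qdiff rho_lim size_ex spread tor_all tor_lim vel_lim w_lim z_lim
open Pool.Agent.Run7.h442.T2
open Pool.Agent.W788.MFP.Four Pool.Agent.W788.BK
open Pool.Agent.W788.MFP.Form hiding form1
open Pool.Agent.W788.MFP.Dos

variable [Law]

section
variable {d L : ℕ} [NeZero L] {σ E t : ℝ}

/-- the error terms -/
theorem err_le {C0 : ℝ} (hC0 : 1 ≤ C0) (ht : 0 < t) (hσ : 0 < σ ^ 2) (p : T d L) {ε' : ℝ} (hε' : 0 ≤ ε')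
    (hmf : (mf d L σ E t).im ≤ C0) (hX0 : 0 ≤ (mm d L σ E t).im)
    (hV1 : V1 d L σ E t ≤ ε' * (t / σ ^ 2) ^ 3)
    (hV2 : t ^ 2 * V2 σ E t p ≤ ε' * (t / σ ^ 2) ^ 3) :
    ‖(σ : ℂ) ^ 4 * (eA σ E t p + eB σ E t p)‖ ≤ 2 * Real.sqrt (C0 * ε') := by
  have hζ0 := ze_pos (d := d) (L := L) (σ := σ) (E := E) ht
  have hmf0 : 0 ≤ (mf d L σ E t).im := GG_im_nonneg hζ0
  have h1 : g2 d L σ E t * (mm d L σ E t).im ≤ C0 / σ ^ 2 := by
    unfold g2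
    have h2 : σ ^ 2 * (mm d L σ E t).im ≤ (ze d L σ E t).im := by
      rw [ze_im]
      linarith
    rw [div_mul_eq_mul_div, div_le_div_iff₀ hζ0 hσ]
    calc (mf d L σ E t).im * (mm d L σ E t).im * σ ^ 2 =
        (mf d L σ E t).im * (σ ^ 2 * (mm d L σ E t).im) := by ring
      _ ≤ C0 * (ze d L σ E t).im := mul_le_mul hmf h2 (by positivity) (by linarith)
  have h5 : 0 ≤ g2 d L σ E t * (mm d L σ E t).im := mul_nonneg (g2_nonneg ht) hX0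
  have hσ0 : σ ≠ 0 := fun h => by rw [h] at hσ; norm_num at hσ
  have hA : (σ ^ 4 * ‖eA σ E t p‖) ^ 2 ≤ C0 * ε' := by
    have h2 := eA_le (σ := σ) (E := E) ht p
    calc (σ ^ 4 * ‖eA σ E t p‖) ^ 2 = σ ^ 8 * ‖eA σ E t p‖ ^ 2 := by ring
      _ ≤ σ ^ 8 * ((g2 d L σ E t * V1 d L σ E t) * ((t ^ 2)⁻¹ * ((mm d L σ E t).im / t))) := by
          gcongr
      _ = σ ^ 8 / t ^ 3 * V1 d L σ E t * (g2 d L σ E t * (mm d L σ E t).im) := by
          field_simp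
      _ ≤ σ ^ 8 / t ^ 3 * (ε' * (t / σ ^ 2) ^ 3) * (C0 / σ ^ 2) := by gcongr
      _ = C0 * ε' := by field_simp
  have hB : (σ ^ 4 * ‖eB σ E t p‖) ^ 2 ≤ C0 * ε' := by
    have h2 := eB_le (σ := σ) (E := E) ht p
    have hV0 := V2_nonneg (σ := σ) (E := E) (t := t) p
    calc (σ ^ 4 * ‖eB σ E t p‖) ^ 2 = σ ^ 8 * ‖eB σ E t p‖ ^ 2 := by ring
      _ ≤ σ ^ 8 * ((g2 d L σ E t * V2 σ E t p) * ((mm d L σ E t).im / t)) := by
          gcongr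
      _ = σ ^ 8 / t ^ 3 * (t ^ 2 * V2 σ E t p) * (g2 d L σ E t * (mm d L σ E t).im) := by
          field_simp
      _ ≤ σ ^ 8 / t ^ 3 * (ε' * (t / σ ^ 2) ^ 3) * (C0 / σ ^ 2) := by gcongr
      _ = C0 * ε' := by field_simp
  have hA' := Real.le_sqrt_of_sq_le hA
  have hB' := Real.le_sqrt_of_sq_le hB
  rw [norm_mul, norm_pow, Complex.norm_real, Real.norm_eq_abs, ← abs_pow,
    abs_of_nonneg (by positivity)]
  calc σ ^ 4 * ‖eA σ E t p + eB σ E t p‖ ≤ σ ^ 4 * (‖eA σ E t p‖ + ‖eB σ E t p‖) := by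
        gcongr
        exact norm_add_le _ _
    _ ≤ _ := by linarith

/-- the error of the ladder kernel -/
theorem kap_le {C0 : ℝ} (hC0 : 1 ≤ C0) (ht : 0 < t) (hσ : 0 < σ ^ 2) (p : T d L) {ε' c0 : ℝ} (hε' : 0 ≤ ε') (hc0 : 0 < c0)
    (hmf : (mf d L σ E t).im ≤ C0) (hX0 : 0 ≤ (mm d L σ E t).im)
    (hη : c0 / 2 * σ ^ 2 ≤ (ze d L σ E t).im)
    (hV1 : V1 d L σ E t ≤ ε' * (t / σ ^ 2) ^ 3) :
    ‖(σ : ℂ) ^ 2 * (kap σ E t p - Kp (ze d L σ E t) p)‖ ≤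
      2 * Real.sqrt (C0 * ε') / c0 * (t / σ ^ 2) := by
  have hζ0 := ze_pos (d := d) (L := L) (σ := σ) (E := E) ht
  have hmf0 : 0 ≤ (mf d L σ E t).im := GG_im_nonneg hζ0
  have h1 : g2 d L σ E t * (mm d L σ E t).im ≤ C0 / σ ^ 2 := by
    unfold g2
    have h2 : σ ^ 2 * (mm d L σ E t).im ≤ (ze d L σ E t).im := by
      rw [ze_im]
      linarith
    rw [div_mul_eq_mul_div, div_le_div_iff₀ hζ0 hσ]
    calc (mf d L σ E t).im * (mm d L σ E t).im * σ ^ 2 =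
        (mf d L σ E t).im * (σ ^ 2 * (mm d L σ E t).im) := by ring
      _ ≤ C0 * (ze d L σ E t).im := mul_le_mul hmf h2 (by positivity) (by linarith)
  have h5 : 0 ≤ g2 d L σ E t * (mm d L σ E t).im := mul_nonneg (g2_nonneg ht) hX0
  have hσ0 : σ ≠ 0 := fun h => by rw [h] at hσ; norm_num at hσ
  have hη' : ((ze d L σ E t).im)⁻¹ ≤ 2 / (c0 * σ ^ 2) := by
    rw [inv_eq_one_div, div_le_div_iff₀ hζ0 (by positivity)]
    linarith
  have h2 := kap_sub (σ := σ) (E := E) ht p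
  have hs : (σ ^ 2 * ‖kap σ E t p - Kp (ze d L σ E t) p‖) ^ 2 ≤
      (2 * Real.sqrt (C0 * ε') / c0 * (t / σ ^ 2)) ^ 2 := by
    have h0 : 0 ≤ ((ze d L σ E t).im)⁻¹ := by positivity
    calc (σ ^ 2 * ‖kap σ E t p - Kp (ze d L σ E t) p‖) ^ 2 =
        σ ^ 4 * ‖kap σ E t p - Kp (ze d L σ E t) p‖ ^ 2 := by ring
      _ ≤ σ ^ 4 * (σ ^ 4 * (g2 d L σ E t * V1 d L σ E t) *
          (t⁻¹ * ((ze d L σ E t).im)⁻¹ ^ 2 * (mm d L σ E t).im)) := by gcongr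
      _ = σ ^ 8 / t * V1 d L σ E t * (g2 d L σ E t * (mm d L σ E t).im) *
          ((ze d L σ E t).im)⁻¹ ^ 2 := by
          rw [div_eq_mul_inv]
          ring
      _ ≤ σ ^ 8 / t * (ε' * (t / σ ^ 2) ^ 3) * (C0 / σ ^ 2) * (2 / (c0 * σ ^ 2)) ^ 2 := by
          gcongr
      _ = 4 * (C0 * ε') / c0 ^ 2 * (t / σ ^ 2) ^ 2 := by
          field_simp
          norm_num
      _ = 4 * Real.sqrt (C0 * ε') ^ 2 / c0 ^ 2 * (t / σ ^ 2) ^ 2 := by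
          rw [Real.sq_sqrt (by positivity)]
      _ = _ := by ring
  rw [norm_mul, norm_pow, Complex.norm_real, Real.norm_eq_abs, sq_abs]
  exact (abs_le_of_sq_le_sq' hs (by positivity)).2

end

variable {L : ℕ} [NeZero L] {σ E t : ℝ}

/-- one instance of the limit -/
theorem inst {ka C0 : ℝ} (hN : Near ka E (ze 2 L σ E t)) (hCC : C0 = CC ka)
    (ht : 0 < t) (hσ : 0 < σ ^ 2) {c0 M w μ J0 S r : ℝ} (hc0 : 0 < c0)
    (hM : 0 ≤ M) (hw0 : 0 < w) (hw1 : w ≤ 1 / 2) (hwc : 3 * w ≤ c0 / 2)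
    (hwM : 4 * M * w ≤ c0 / 2)
    (hr : r = t / σ ^ 2) (hrw : Real.sqrt r ≤ w)
    (hJ0 : J0 = (mJ E).re) (hS0 : S = (mS 2 E).re)
    (hJ : c0 ≤ J0) (hS : 0 ≤ S)
    (hη1 : (ze 2 L σ E t).im ≤ 1)
    (hmm : ‖mm 2 L σ E t - mf 2 L σ E t‖ ≤ w ^ 2 * r)
    (hV1 : V1 2 L σ E t ≤ w ^ 2 * r ^ 3)
    (hV2 : ∀ p : T 2 L, t ^ 2 * V2 σ E t p ≤ w ^ 2 * r ^ 3)
    (herr : er 2 L (ze 2 L σ E t).im + CH ka * ‖ze 2 L σ E t - E‖ ^ (1 / 4 : ℝ) ≤ w)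
    (hmf : ‖mf 2 L σ E t‖ ≤ C0)
    (hμ : μ ≤ 1 / C0 / 2) (hμ1 : μ ≤ 1)
    (hK : (K1 C0 c0 M + 2 * Real.sqrt C0 / c0) * w ≤ μ)
    (hA : (1 / c0 + M ^ 2 * C0 / (4 * c0 ^ 3) + 1) * w ≤ μ)
    (hE : 2 * Real.sqrt C0 * w ≤ μ)
    (j : Fin 2 → ℤ) (hj : sz L j ≤ M * (|σ| * Real.sqrt t)) :
    ‖(t : ℂ) * ff σ E t (mom 2 L j) - ((1 / (1 / J0 + (∑ i, ang L j i ^ 2) / (σ ^ 2 * t) *
      S / (4 * J0 ^ 3)) : ℝ) : ℂ)‖ ≤ (4 / (1 / C0) + 2 / (1 / C0) ^ 2) * μ := by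
  have hC0 : 1 ≤ C0 := hCC ▸ CC_ge hN.hka
  have hC32 := C32_nonneg
  have hkk := hN.hka
  have hσ0 : σ ≠ 0 := fun h => by rw [h] at hσ; norm_num at hσ
  have hr0 : 0 < r := by rw [hr]; positivity
  have htr : t = r * σ ^ 2 := by rw [hr]; field_simp
  have hrw2 : r ≤ w ^ 2 := by
    rw [← Real.sq_sqrt hr0.le]
    exact pow_le_pow_left₀ (Real.sqrt_nonneg _) hrw 2
  have hww : w ^ 2 ≤ w := by nlinarith
  have hrw1 : r ≤ w := hrw2.trans hww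
  have hζ0 := ze_pos (d := 2) (L := L) (σ := σ) (E := E) ht
  set X := (mm 2 L σ E t).im with hXd
  set X' := (mf 2 L σ E t).im with hX'd
  set ζ := ze 2 L σ E t with hζd
  have hX0 : 0 ≤ X := mm_im_nonneg ht
  have hX'0 : 0 ≤ X' := GG_im_nonneg hζ0
  have hX'1 : X' ≤ C0 := ((le_abs_self _).trans (Complex.abs_im_le_norm _)).trans hmf
  have hJC : J0 ≤ C0 := by
    rw [hJ0]
    have h1 := mJ_bd hN.hka hN.hka1 hN.hE
    have h2 := (le_abs_self _).trans (Complex.abs_re_le_norm (mJ E))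
    have hp : 0 ≤ (1024 * C32 + 28) * 8 / ka ^ 3 := by positivity
    rw [hCC]
    unfold CC
    linarith
  have hSC : S ≤ C0 := by
    rw [hS0]
    have h1 := mS_bd E
    have h2 := (le_abs_self _).trans (Complex.abs_re_le_norm (mS 2 E))
    have hp : 0 ≤ (1024 * C32 + 28) * 8 / ka ^ 3 := by positivity
    rw [hCC]
    unfold CC
    linarith
  have hJp : 0 < J0 := hc0.trans_le hJ
  have hXX : |X - X'| ≤ w ^ 2 * r := by
    rw [hXd, hX'd, ← Complex.sub_im]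
    exact (Complex.abs_im_le_norm _).trans hmm
  have hXX' : |X - X'| ≤ w * r := hXX.trans (by gcongr)
  have hXJ' : |X' - J0| ≤ w := by
    rw [hJ0]
    exact (free1_im L hζ0 hN).trans herr
  have hXJ : |X + r - J0| ≤ 3 * w := by
    have e1 : X + r - J0 = (X - X') + (X' - J0) + r := by ring
    rw [e1]
    have h1 := abs_add_le ((X - X') + (X' - J0)) r
    have h2 := abs_add_le (X - X') (X' - J0)
    have h3 : w * r ≤ w := by nlinarith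
    rw [abs_of_pos hr0] at h1
    linarith
  have hXr : c0 / 2 ≤ X + r := by
    have := (abs_le.1 hXJ).1
    linarith
  have hXp : 0 < X + r := by linarith
  have hη : ζ.im = σ ^ 2 * (X + r) := by
    rw [hζd, ze_im, ← hXd, htr]
    ring
  have hη2 : c0 / 2 * σ ^ 2 ≤ ζ.im := by
    rw [hη, mul_comm]
    gcongr
  -- the momentum
  set Θ := sz L j with hΘ
  set A2 := ∑ i, ang L j i ^ 2 with hA2
  have hΘ0 : 0 ≤ Θ := sz_nonneg j
  have hA20 : 0 ≤ A2 := Finset.sum_nonneg fun _ _ => sq_nonneg _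
  have hsr : |σ| * Real.sqrt t = σ ^ 2 * Real.sqrt r := by
    rw [htr, Real.sqrt_mul hr0.le, Real.sqrt_sq_eq_abs]
    have : σ ^ 2 = |σ| * |σ| := by rw [← sq, sq_abs]
    rw [this]
    ring
  rw [hsr] at hj
  have hΘ4 : 4 * Θ ≤ ζ.im := by
    refine le_trans ?_ hη2
    calc 4 * Θ ≤ 4 * (M * (σ ^ 2 * Real.sqrt r)) := by gcongr
      _ ≤ 4 * (M * (σ ^ 2 * w)) := by gcongr
      _ = (4 * M * w) * σ ^ 2 := by ring
      _ ≤ c0 / 2 * σ ^ 2 := by gcongr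
  set q := A2 / (σ ^ 2 * t) with hq
  have hq0 : 0 ≤ q := by positivity
  have hq1 : q ≤ M ^ 2 := by
    rw [hq, div_le_iff₀ (by positivity)]
    calc A2 ≤ Θ ^ 2 := ang_sq j
      _ ≤ (M * (σ ^ 2 * Real.sqrt r)) ^ 2 := pow_le_pow_left₀ hΘ0 hj 2
      _ = M ^ 2 * (σ ^ 4 * Real.sqrt r ^ 2) := by ring
      _ = M ^ 2 * (σ ^ 2 * t) := by
          rw [Real.sq_sqrt hr0.le, htr]
          ring
  have hA2q : A2 = q * (σ ^ 4 * r) := by
    rw [hq, htr]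
    field_simp
  -- the ladder
  set Kr := (Kp ζ (mom 2 L j)).re with hKr
  set B0 := σ ^ 2 / r * (X' / ζ.im - Kr) with hB0
  have hlad := lad hζ0 hη1 j hΘ4 E
  have hB0e : |B0 - 1 / 4 * q * S / (X + r) ^ 3| ≤
      1920 * M ^ 3 * C0 / c0 ^ 4 * w + 4 * M ^ 2 / c0 ^ 3 * w := by
    have e1 : B0 - 1 / 4 * q * S / (X + r) ^ 3 = σ ^ 2 / r *
        (X' / ζ.im - Kr - 1 / 4 * A2 / ζ.im ^ 3 * S) := by
      rw [hB0, hη, hA2q]
      field_simp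
    rw [e1, abs_mul, abs_of_pos (by positivity : 0 < σ ^ 2 / r)]
    have h1 : |X' / ζ.im - Kr - 1 / 4 * A2 / ζ.im ^ 3 * S| ≤
        120 * Θ ^ 3 / ζ.im ^ 4 * X' + 1 / 2 * A2 / ζ.im ^ 3 * w := by
      have h2 : |X' / ζ.im - Kr - 1 / 4 * A2 / ζ.im ^ 3 * S| ≤
          120 * Θ ^ 3 / ζ.im ^ 4 * X' + 1 / 2 * A2 / ζ.im ^ 3 *
          (er 2 L ζ.im + CH ka * ‖ζ - E‖ ^ (1 / 4 : ℝ)) := by
        rw [hS0]
        refine hlad.trans ?_
        have hCH := CH_ge hN.hka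
        have hrp : 0 ≤ ‖ζ - E‖ ^ (1 / 4 : ℝ) := by positivity
        have hch := mul_le_mul_of_nonneg_right hCH hrp
        refine add_le_add (le_of_eq rfl) ?_
        gcongr
      refine h2.trans ?_
      gcongr
    have hΘ3 : Θ ^ 3 ≤ M ^ 3 * (σ ^ 6 * (r * Real.sqrt r)) := by
      calc Θ ^ 3 ≤ (M * (σ ^ 2 * Real.sqrt r)) ^ 3 := pow_le_pow_left₀ hΘ0 hj 3
        _ = M ^ 3 * (σ ^ 6 * (Real.sqrt r ^ 2 * Real.sqrt r)) := by ring
        _ = _ := by rw [Real.sq_sqrt hr0.le]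
    have h3 : σ ^ 2 / r * (120 * Θ ^ 3 / ζ.im ^ 4 * X') ≤ 1920 * M ^ 3 * C0 / c0 ^ 4 * w := by
      calc σ ^ 2 / r * (120 * Θ ^ 3 / ζ.im ^ 4 * X') ≤
          σ ^ 2 / r * (120 * (M ^ 3 * (σ ^ 6 * (r * w))) / (c0 / 2 * σ ^ 2) ^ 4 * C0) := by
            gcongr
            refine hΘ3.trans ?_
            gcongr
        _ = _ := by
            field_simp
            ring
    have h4 : σ ^ 2 / r * (1 / 2 * A2 / ζ.im ^ 3 * w) ≤ 4 * M ^ 2 / c0 ^ 3 * w := by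
      calc σ ^ 2 / r * (1 / 2 * A2 / ζ.im ^ 3 * w) ≤
          σ ^ 2 / r * (1 / 2 * (M ^ 2 * (σ ^ 4 * r)) / (c0 / 2 * σ ^ 2) ^ 3 * w) := by
            gcongr
            rw [hA2q]
            gcongr
        _ = _ := by
            field_simp
            ring
    calc σ ^ 2 / r * |X' / ζ.im - Kr - 1 / 4 * A2 / ζ.im ^ 3 * S| ≤
        σ ^ 2 / r * (120 * Θ ^ 3 / ζ.im ^ 4 * X' + 1 / 2 * A2 / ζ.im ^ 3 * w) := by gcongr
      _ = σ ^ 2 / r * (120 * Θ ^ 3 / ζ.im ^ 4 * X') + σ ^ 2 / r * (1 / 2 * A2 / ζ.im ^ 3 * w) := by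
          ring
      _ ≤ _ := add_le_add h3 h4
  -- the denominator
  set b := 1 / J0 + q * S / (4 * J0 ^ 3) with hb
  have hb0 : 1 / C0 ≤ b := by
    have h1 : 1 / C0 ≤ 1 / J0 := by gcongr
    have h2 : 0 ≤ q * S / (4 * J0 ^ 3) := by positivity
    linarith
  have hb1 : b ≤ 1 / c0 + M ^ 2 * C0 / (4 * c0 ^ 3) := by
    rw [hb]
    gcongr
  have hnum := num_lim hC0 (X := X) (X' := X') (r := r) (J0 := J0) (S := S) (q := q) (B0 := B0) hc0 hM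
    hw0.le hr0.le hJ hS hSC hq0 hq1 hXJ hwc hXX' hB0e
  rw [← hb] at hnum
  set κp := kap σ E t (mom 2 L j) with hκp
  set Bc : ℂ := (1 - σ ^ 2 * κp) / ((r : ℝ) : ℂ) with hBc
  have hr' : (r : ℂ) ≠ 0 := by exact_mod_cast hr0.ne'
  have hKreal : Kp ζ (mom 2 L j) = (Kr : ℂ) := by
    apply Complex.ext
    · rw [Complex.ofReal_re]
    · rw [Complex.ofReal_im, Kp_im]
  have hkap := kap_le hC0 (σ := σ) (E := E) (d := 2) (L := L) ht hσ (mom 2 L j) (ε' := w ^ 2)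
    (c0 := c0) (by positivity) hc0 hX'1 hX0 hη2 (by rw [← hr]; exact hV1)
  rw [← hr, ← hζd, ← hκp, hKreal] at hkap
  have hsq : Real.sqrt (C0 * w ^ 2) = Real.sqrt C0 * w := by
    rw [Real.sqrt_mul (by linarith), Real.sqrt_sq hw0.le]
  rw [hsq] at hkap
  have hBb : ‖Bc - (b : ℂ)‖ ≤ μ := by
    have e1 : Bc - (b : ℂ) = (((1 + (X - X') / r) / (X + r) + B0 - b : ℝ) : ℂ) -
        (σ : ℂ) ^ 2 * (κp - Kr) / r := by
      have e2 : (1 + (X - X') / r) / (X + r) + B0 = (1 - σ ^ 2 * Kr) / r := by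
        rw [hB0, hη]
        field_simp
        ring
      rw [e2, hBc]
      push_cast
      field_simp
      ring
    rw [e1]
    refine (norm_sub_le _ _).trans ?_
    rw [Complex.norm_real, Real.norm_eq_abs, norm_div, Complex.norm_real,
      Real.norm_of_nonneg hr0.le]
    have h2 : ‖(σ : ℂ) ^ 2 * (κp - Kr)‖ / r ≤ 2 * (Real.sqrt C0 * w) / c0 := by
      rw [div_le_iff₀ hr0]
      exact hkap
    calc |(1 + (X - X') / r) / (X + r) + B0 - b| + ‖(σ : ℂ) ^ 2 * (κp - Kr)‖ / r ≤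
        K1 C0 c0 M * w + 2 * (Real.sqrt C0 * w) / c0 := add_le_add hnum h2
      _ = (K1 C0 c0 M + 2 * Real.sqrt C0 / c0) * w := by ring
      _ ≤ μ := hK
  have hAe : ‖(σ : ℂ) ^ 2 * κp - 1‖ ≤ μ := by
    have e1 : (σ : ℂ) ^ 2 * κp - 1 = -(r * Bc) := by
      rw [hBc]
      field_simp
      ring
    have h1 : ‖Bc‖ ≤ b + 1 := by
      have h2 := norm_add_le (Bc - b) (b : ℂ)
      rw [sub_add_cancel, Complex.norm_real, Real.norm_of_nonneg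
        ((by positivity : (0 : ℝ) ≤ 1 / C0).trans hb0)] at h2
      linarith
    rw [e1, norm_neg, norm_mul, Complex.norm_real, Real.norm_of_nonneg hr0.le]
    refine le_trans ?_ hA
    calc r * ‖Bc‖ ≤ w * (1 / c0 + M ^ 2 * C0 / (4 * c0 ^ 3) + 1) := by
          refine mul_le_mul hrw1 (h1.trans ?_) (norm_nonneg _) hw0.le
          linarith
      _ = _ := by ring
  have hEe : ‖(σ : ℂ) ^ 4 * (eA σ E t (mom 2 L j) + eB σ E t (mom 2 L j))‖ ≤ μ := by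
    have h1 := err_le hC0 (σ := σ) (E := E) (d := 2) (L := L) ht hσ (mom 2 L j) (ε' := w ^ 2)
      (by positivity) hX'1 hX0 (by rw [← hr]; exact hV1) (by rw [← hr]; exact hV2 _)
    rw [hsq] at h1
    refine h1.trans (le_trans (le_of_eq ?_) hE)
    ring
  have hfin := fin_alg ((σ : ℂ) ^ 2 * κp)
    ((σ : ℂ) ^ 4 * (eA σ E t (mom 2 L j) + eB σ E t (mom 2 L j))) Bc b (1 / C0) μ
    (by positivity) hb0 hμ hAe hEe hBb
  have htf := tf_eq (σ := σ) (E := E) (d := 2) (L := L) ht hσ (mom 2 L j) (by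
    rw [← hr]
    exact hfin.1)
  rw [← hr] at htf
  rw [htf]
  exact hfin.2

/-- the limit on the torus -/
theorem tor_lim (ka : ℝ) (hka : 0 < ka) (hka1 : ka ≤ 1) (κ : ℝ) (hκ0 : 0 < κ)
    (hκ1 : κ < 2 / 15) (c0 : ℝ)
    (hc0 : 0 < c0) (hJ : ∀ E : ℝ, Bulk ka E → c0 ≤ (mJ E).re)
    (hS : ∀ E : ℝ, Bulk ka E → 0 ≤ (mS 2 E).re) (M : ℝ) (hM : 0 ≤ M) (ε : ℝ) (hε : 0 < ε) :
    ∃ s : ℝ, 0 < s ∧ s ≤ 1 / 5 ∧ ∀ (σ E t : ℝ) (L : ℕ) [NeZero L], Odd L → 0 < |σ| → |σ| ≤ s → Bulk ka E →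
      |σ| ^ (2 + κ) ≤ t → t ≤ s * σ ^ 2 → (|σ| ^ 12)⁻¹ ≤ (L : ℝ) → (L : ℝ) ≤ 2 * (|σ| ^ 12)⁻¹ →
      ∀ j : Fin 2 → ℤ, sz L j ≤ M * (|σ| * Real.sqrt t) →
      ‖(t : ℂ) * ff σ E t (mom 2 L j) - ((1 / (1 / (mJ E).re +
        (∑ i, ang L j i ^ 2) / (σ ^ 2 * t) * (mS 2 E).re / (4 * (mJ E).re ^ 3)) : ℝ) : ℂ)‖ ≤
        ε := by
  obtain ⟨C0, hCC⟩ : ∃ C0, C0 = CC ka := ⟨_, rfl⟩
  have hC0 : 1 ≤ C0 := hCC ▸ CC_ge hka
  have hCH := CH_nonneg hka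
  set b0 : ℝ := 1 / C0 with hb0
  have hb0p : 0 < b0 := by positivity
  set μ : ℝ := min (b0 / 2) (min 1 (ε / (4 / b0 + 2 / b0 ^ 2))) with hμ
  have hμ0 : 0 < μ := by positivity
  set K : ℝ := (K1 C0 c0 M + 2 * Real.sqrt C0 / c0) + (1 / c0 + M ^ 2 * C0 / (4 * c0 ^ 3) + 1) +
    2 * Real.sqrt C0 with hK
  have hK10 : 0 ≤ K1 C0 c0 M := by unfold K1; positivity
  have hK0 : 0 < K := by positivity
  set w : ℝ := min (min (1 / 2) (μ / K)) (min (c0 / 6) (c0 / (8 * (M + 1)))) with hw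
  have hw0 : 0 < w := by positivity
  have hw1 : w ≤ 1 / 2 := (min_le_left _ _).trans (min_le_left _ _)
  have hw2 : w ≤ μ / K := (min_le_left _ _).trans (min_le_right _ _)
  have hw3 : w ≤ c0 / 6 := (min_le_right _ _).trans (min_le_left _ _)
  have hw4 : w ≤ c0 / (8 * (M + 1)) := (min_le_right _ _).trans (min_le_right _ _)
  have hwK : K * w ≤ μ := by
    rw [le_div_iff₀ hK0] at hw2
    linarith
  have hwM : 4 * M * w ≤ c0 / 2 := by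
    rw [le_div_iff₀ (by positivity)] at hw4
    nlinarith
  obtain ⟨s1, hs1, hs1', H1⟩ := apr ka hka hka1 κ hκ0 hκ1 (w ^ 2) (by positivity) (by nlinarith)
  obtain ⟨s2, hs2, H2⟩ := small_pow (CH ka * (C0 + 2) ^ (1 / 4 : ℝ)) (1 / 2) (w / 2)
    (by norm_num) (by positivity)
  refine ⟨min (min s1 s2) (w ^ 2), by positivity, ((min_le_left _ _).trans
    (min_le_left _ _)).trans hs1', ?_⟩
  intro σ E t L _ hodd hσ hσs hE htl htu hL1 hL2 j hj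
  have hσ1 : |σ| ≤ s1 := hσs.trans ((min_le_left _ _).trans (min_le_left _ _))
  have hσ2 : |σ| ≤ s2 := hσs.trans ((min_le_left _ _).trans (min_le_right _ _))
  have hσ0 : 0 < σ ^ 2 := by rw [← sq_abs]; positivity
  have ht : 0 < t := (Real.rpow_pos_of_pos hσ _).trans_le htl
  have hss : min (min s1 s2) (w ^ 2) ≤ w ^ 2 := min_le_right _ _
  have hr : t / σ ^ 2 ≤ w ^ 2 := by
    rw [div_le_iff₀ hσ0]
    exact htu.trans (mul_le_mul_of_nonneg_right hss hσ0.le)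
  have hw21 : w ^ 2 ≤ 1 := by nlinarith
  have htu1 : t ≤ σ ^ 2 := by
    have := (div_le_iff₀ hσ0).1 (hr.trans hw21)
    linarith
  obtain ⟨b1, b2, b3, b4, b5, b6, b7, hN, hmf⟩ := H1 σ E t L hodd hE hσ hσ1 htl htu1 hL1 hL2
  rw [← hCC] at b7 hmf
  have hww : w ^ 2 ≤ w / 2 := by nlinarith
  have herr : er 2 L (ze 2 L σ E t).im +
      CH ka * ‖ze 2 L σ E t - E‖ ^ (1 / 4 : ℝ) ≤ w := by
    have h1 : ‖ze 2 L σ E t - E‖ ^ (1 / 4 : ℝ) ≤ (C0 + 2) ^ (1 / 4 : ℝ) * |σ| ^ (1 / 2 : ℝ) := by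
      calc ‖ze 2 L σ E t - E‖ ^ (1 / 4 : ℝ) ≤ ((C0 + 2) * σ ^ 2) ^ (1 / 4 : ℝ) :=
            Real.rpow_le_rpow (norm_nonneg _) b7 (by norm_num)
        _ = (C0 + 2) ^ (1 / 4 : ℝ) * |σ| ^ (1 / 2 : ℝ) := by
            rw [Real.mul_rpow (by linarith) hσ0.le, ← sq_abs, ← Real.rpow_natCast,
              ← Real.rpow_mul hσ.le]
            norm_num
    have h2 := H2 |σ| hσ hσ2
    have h4 := mul_le_mul_of_nonneg_left h1 hCH
    have h5 : CH ka * ((C0 + 2) ^ (1 / 4 : ℝ) * |σ| ^ (1 / 2 : ℝ)) ≤ w / 2 := by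
      refine le_trans (le_of_eq ?_) h2
      ring
    linarith
  have hin := inst (σ := σ) (E := E) (t := t) (L := L) hN hCC ht hσ0 (c0 := c0) (M := M) (w := w)
    (μ := μ) (J0 := (mJ E).re) (S := (mS 2 E).re) (r := t / σ ^ 2) hc0 hM hw0 hw1
    (by linarith) hwM rfl (by
      rw [Real.sqrt_le_left hw0.le]
      exact hr) rfl rfl (hJ E hE) (hS E hE) b2 b3 b4 b5 herr hmf (min_le_left _ _)
    ((min_le_right _ _).trans (min_le_left _ _)) (by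
      have h1 : 0 ≤ (1 / c0 + M ^ 2 * C0 / (4 * c0 ^ 3) + 1) * w := by positivity
      have h2 : 0 ≤ 2 * Real.sqrt C0 * w := by positivity
      have h3 : K * w = (K1 C0 c0 M + 2 * Real.sqrt C0 / c0) * w +
        (1 / c0 + M ^ 2 * C0 / (4 * c0 ^ 3) + 1) * w + 2 * Real.sqrt C0 * w := by
        rw [hK]
        ring
      linarith) (by
      have h1 : 0 ≤ (K1 C0 c0 M + 2 * Real.sqrt C0 / c0) * w := by positivity
      have h2 : 0 ≤ 2 * Real.sqrt C0 * w := by positivity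
      have h3 : K * w = (K1 C0 c0 M + 2 * Real.sqrt C0 / c0) * w +
        (1 / c0 + M ^ 2 * C0 / (4 * c0 ^ 3) + 1) * w + 2 * Real.sqrt C0 * w := by
        rw [hK]
        ring
      linarith) (by
      have h1 : 0 ≤ (1 / c0 + M ^ 2 * C0 / (4 * c0 ^ 3) + 1) * w := by positivity
      have h2 : 0 ≤ (K1 C0 c0 M + 2 * Real.sqrt C0 / c0) * w := by positivity
      have h3 : K * w = (K1 C0 c0 M + 2 * Real.sqrt C0 / c0) * w +
        (1 / c0 + M ^ 2 * C0 / (4 * c0 ^ 3) + 1) * w + 2 * Real.sqrt C0 * w := by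
        rw [hK]
        ring
      linarith) j hj
  refine hin.trans ?_
  have h1 : μ ≤ ε / (4 / b0 + 2 / b0 ^ 2) := (min_le_right _ _).trans (min_le_right _ _)
  have h2 : 0 < 4 / b0 + 2 / b0 ^ 2 := by positivity
  rw [le_div_iff₀ h2] at h1
  rw [← hb0]
  linarith

end Run7.h108.GL.D2
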