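import Pool.Agent.Run7.h108.GL.Var4
import Pool.Agent.Run7.h442.T2.Par
import Pool.Agent.Run7.h47.Fin1
import Pool.Agent.Run7.h47.Eig5

/-! Choice of the parameters in dimension two, bounded laws (after helper108's `GL.Par`). -/

set_option autoImplicit false
set_option linter.unusedSectionVars false

open scoped BigOperators Matrix
open MeasureTheory

namespace Run7.h108.GL.D2

open Pool.Agent.Run7.h47 hiding Hyp good
open Pool.Agent.Run7.h442.T2 (Bulk)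
open Pool.Agent.W788.MFP.Four Pool.Agent.W788.BK
open Pool.Agent.W788.MFP.Form hiding form1
open Pool.Agent.W788.MFP.Dos

/-- the variance bounds for all small couplings -/
theorem par [Law] (ka : ℝ) (hka : 0 < ka) (hka1 : ka ≤ 1) (κ : ℝ) (hκ0 : 0 < κ) (hκ1 : κ < 2 / 15) :
    ∃ β : ℝ, 0 < β ∧ β ≤ 1 ∧ ∀ ε : ℝ, 0 < ε → ε ≤ 1 →
    ∃ s : ℝ, 0 < s ∧ s ≤ 1 / 5 ∧ ∀ (σ E t : ℝ) (L : ℕ) [NeZero L], Odd L → Bulk ka E →
      0 < |σ| → |σ| ≤ s →
      |σ| ^ (2 + κ) ≤ t → t ≤ σ ^ 2 → (|σ| ^ 12)⁻¹ ≤ (L : ℝ) → (L : ℝ) ≤ 2 * (|σ| ^ 12)⁻¹ →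
      V1 2 L σ E t ≤ ε * |σ| ^ β * (t / σ ^ 2) ^ 3 * (1 + (mm 2 L σ E t).im ^ 2) ∧
      ∀ p : T 2 L, t ^ 2 * V2 σ E t p ≤
        ε * |σ| ^ β * (t / σ ^ 2) ^ 3 * (1 + (mm 2 L σ E t).im ^ 2) := by
  have hW := Law.hb (self := ‹Law›)
  set W : ℝ := Law.b with hWd
  set M : ℝ := W / m1 with hM
  have hM0 : 0 < M := div_pos hW m1_pos
  set CQ : ℝ := 2600000 / ka ^ 3 with hCQd
  have hCQ : 0 < CQ := by positivity
  set e : ℝ := (2 - 15 * κ) / 9 with he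
  have he0 : 0 < e := by rw [he]; linarith
  have he1 : e < 2 / 9 := by rw [he]; linarith
  have hκe : κ = 2 / 15 - 3 * e / 5 := by rw [he]; ring
  set a : ℝ := e / 7 with ha
  have ha0 : 0 < a := by positivity
  have hea : 0 < e * a := by positivity
  set β : ℝ := e / 4 with hβ
  have hβ0 : 0 < β := by positivity
  set KQ : ℝ := 12 * CQ / a ^ 2 with hKQ
  have hKQ0 : 0 < KQ := by positivity
  set Kγ : ℝ := 6800 / a ^ 2 with hKγ
  have hKγ0 : 0 < Kγ := by positivity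
  refine ⟨β, hβ0, by rw [hβ]; linarith, fun ε hε hε1 => ?_⟩
  set P : ℕ := ⌈(72 : ℝ) * 7 / (5 * e)⌉₊ with hP
  have hP1 : (72 : ℝ) * 7 / (5 * e) ≤ P := Nat.le_ceil _
  have hP2 : (72 : ℝ) ≤ 5 * e / 7 * P := by
    rw [div_le_iff₀ (by positivity)] at hP1
    linarith
  have hP0 : P ≠ 0 := by
    intro h
    rw [h] at hP2
    norm_num at hP2
  set K0 : ℝ := (32 * M ^ 2 * P * Kγ) ^ P * 2 ^ 2 with hK0
  have hK00 : 0 < K0 := by
    have : (0 : ℝ) < P := by exact_mod_cast Nat.pos_of_ne_zero hP0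
    positivity
  set Kρ : ℝ := (5 * W ^ 3 + 7 * W) * (1 + 6 * Kγ) ^ 2 with hKρ
  have hKρ0 : 0 < Kρ := by positivity
  obtain ⟨s1, hs1, H1⟩ := cmp_pow (14 * (72 * W ^ 2 * (48 * KQ + 2)))
    (8 + (2 - e) * (4 / 3) - 2 * a) (5 * (2 + κ) + β) (ε / 4) (by
      rw [hκe, ha, hβ]
      linarith) (by positivity)
  obtain ⟨s2, hs2, H2⟩ := cmp_pow (14 * (36 * 32) * W ^ 2 * KQ * Kγ ^ 2)
    (2 - 6 * a - (2 - e) * (2 / 3)) (3 * κ + β) (ε / 4) (by
      rw [hκe, ha, hβ]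
      linarith) (by positivity)
  obtain ⟨s3, hs3, H3⟩ := cmp_pow (56 * 2 ^ 2 * K0)
    (-24 - 2 * (2 + κ) + (5 * e / 7 * P - 24)) (3 * κ + β) (ε / 4) (by rw [hβ]; linarith)
    (by positivity)
  obtain ⟨s5, hs5, H5⟩ := cmp_pow (4 * Kρ ^ 2)
    (2 - 2 * (4 * a + 2 * e + 2 * κ)) (3 * κ + β) (ε / 4) (by
      rw [hκe, ha, hβ]
      linarith) (by positivity)
  obtain ⟨s6, hs6, H6⟩ := cmp_pow (2 * (10 * (1 + W) ^ 5) ^ 2 * K0)
    (2 - 10 * (2 + κ) + (5 * e / 7 * P - 24)) (3 * κ + β) (ε / 4) (by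
      rw [hβ]
      linarith) (by positivity)
  obtain ⟨s7, hs7, H7⟩ := small_pow (W * Kγ) (1 - 2 * a) (1 / 4) (by rw [ha]; linarith)
    (by norm_num)
  obtain ⟨s8, hs8, H8⟩ := small_pow (6 * W * Kγ) (1 - 2 * a - e - κ) (1 / 2)
    (by rw [ha]; linarith) (by norm_num)
  refine ⟨min (min (min s1 s2) (min s3 (1 / 5))) (min (min s5 s6) (min s7 s8)),
    by positivity,
    (min_le_left _ _).trans ((min_le_right _ _).trans (min_le_right _ _)), ?_⟩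
  intro σ E t L _ hodd hE hσ hσs htl htu hL1 hL2
  set x : ℝ := |σ| with hx
  have hq1 : x ≤ min (min s1 s2) (min s3 (1 / 5)) := hσs.trans (min_le_left _ _)
  have hq2 : x ≤ min (min s5 s6) (min s7 s8) := hσs.trans (min_le_right _ _)
  have hxs1 : x ≤ s1 := hq1.trans ((min_le_left _ _).trans (min_le_left _ _))
  have hxs2 : x ≤ s2 := hq1.trans ((min_le_left _ _).trans (min_le_right _ _))
  have hxs3 : x ≤ s3 := hq1.trans ((min_le_right _ _).trans (min_le_left _ _))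
  have hx5 : x ≤ 1 / 5 := hq1.trans ((min_le_right _ _).trans (min_le_right _ _))
  have hxs5 : x ≤ s5 := hq2.trans ((min_le_left _ _).trans (min_le_left _ _))
  have hxs6 : x ≤ s6 := hq2.trans ((min_le_left _ _).trans (min_le_right _ _))
  have hxs7 : x ≤ s7 := hq2.trans ((min_le_right _ _).trans (min_le_left _ _))
  have hxs8 : x ≤ s8 := hq2.trans ((min_le_right _ _).trans (min_le_right _ _))
  have hx1 : x ≤ 1 := by linarith
  have hσx : σ ^ 2 = x ^ 2 := (sq_abs σ).symm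
  have ht : 0 < t := (Real.rpow_pos_of_pos hσ _).trans_le htl
  have hxβ0 : 0 < x ^ β := Real.rpow_pos_of_pos hσ _
  have hxβ1 : x ^ β ≤ 1 := Real.rpow_le_one hσ.le hx1 hβ0.le
  -- the parameters
  set δ : ℝ := x ^ (2 - e) with hδ
  have hδ0 : 0 < δ := Real.rpow_pos_of_pos hσ _
  have hδx : x ^ 2 ≤ δ := by
    rw [← Real.rpow_natCast, hδ]
    exact pow_cmp hσ hx1 (by push_cast; linarith)
  have hδx1 : δ ≤ x := by
    calc δ ≤ x ^ (1 : ℝ) := pow_cmp hσ hx1 (by linarith)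
      _ = x := Real.rpow_one x
  have hδ1 : δ ≤ 1 := hδx1.trans hx1
  have hδ2 : δ ≤ 1 / 2 := hδx1.trans (by linarith)
  set θ : ℝ := 1 / 2 * δ ^ (2 / 3 : ℝ) with hθ
  have hθ0 : 0 < θ := by positivity
  have hδb : δ ^ (2 / 3 : ℝ) ≤ 1 := Real.rpow_le_one hδ0.le hδ1 (by norm_num)
  have hθ1 : θ ≤ 1 := by
    rw [hθ]
    linarith
  have hθx : 1 / 2 * x ^ 2 ≤ θ := by
    rw [hθ]
    refine mul_le_mul_of_nonneg_left ?_ (by norm_num)
    rw [hδ, ← Real.rpow_mul hσ.le, ← Real.rpow_natCast]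
    exact pow_cmp hσ hx1 (by
      push_cast
      linarith)
  set τ : ℝ := 1 / (4 * x) with hτ
  have hτ0 : 0 < τ := by positivity
  have hxL : x ^ 12 * (L : ℝ) ≥ 1 := by
    have := mul_le_mul_of_nonneg_left hL1 (by positivity : 0 ≤ x ^ 12)
    rwa [mul_inv_cancel₀ (by positivity)] at this
  have hL0 : (0 : ℝ) < L := lt_of_lt_of_le (by positivity) hL1
  -- logarithms
  have hlog0 : 0 ≤ Real.log (1 / δ) := Real.log_nonneg (by
    rw [le_div_iff₀ hδ0]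
    linarith)
  have hlog : Real.log (1 / δ) ≤ 2 / a * x ^ (-a) := by
    refine (log_bd hδ0 (half_pos ha0)).trans ?_
    have h1 : δ ^ (-(a / 2)) ≤ x ^ (-a) := by
      rw [hδ, ← Real.rpow_mul hσ.le]
      exact pow_cmp hσ hx1 (by linarith)
    calc δ ^ (-(a / 2)) / (a / 2) ≤ x ^ (-a) / (a / 2) :=
          div_le_div_of_nonneg_right h1 (by positivity)
      _ = _ := by field_simp
  have hlog2 : Real.log (1 / δ) ^ 2 ≤ 4 / a ^ 2 * x ^ (-(2 * a)) := by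
    calc Real.log (1 / δ) ^ 2 ≤ (2 / a * x ^ (-a)) ^ 2 := pow_le_pow_left₀ hlog0 hlog 2
      _ = _ := by
          rw [mul_pow, ← Real.rpow_natCast (x ^ (-a)), ← Real.rpow_mul hσ.le]
          have : -a * ((2 : ℕ) : ℝ) = -(2 * a) := by push_cast; ring
          rw [this]
          ring
  have hgg : 1700 * Real.log (1 / δ) ^ 2 ≤ Kγ * x ^ (-(2 * a)) := by
    calc 1700 * Real.log (1 / δ) ^ 2 ≤ 1700 * (4 / a ^ 2 * x ^ (-(2 * a))) := by gcongr
      _ = _ := by rw [hKγ]; ring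
  set Q : ℝ := KQ * x ^ (-(2 * a) - (2 - e) * (2 / 3)) with hQ
  have hQ0 : 0 < Q := by positivity
  have hδ23 : (δ ^ (2 / 3 : ℝ))⁻¹ = x ^ (-((2 - e) * (2 / 3))) := by
    rw [hδ, ← Real.rpow_mul hσ.le, ← Real.rpow_neg hσ.le]
  have hsum : (Real.sqrt δ)⁻¹ + θ⁻¹ ≤ 3 * x ^ (-((2 - e) * (2 / 3))) := by
    have h1 : (Real.sqrt δ)⁻¹ ≤ (δ ^ (2 / 3 : ℝ))⁻¹ := by
      apply inv_anti₀ (by positivity)
      rw [Real.sqrt_eq_rpow]
      exact pow_cmp hδ0 hδ1 (by norm_num)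
    have h2 : θ⁻¹ = 2 * (δ ^ (2 / 3 : ℝ))⁻¹ := by
      rw [hθ, mul_inv]
      norm_num
    rw [h2, ← hδ23]
    linarith
  have hQb : CQ * Real.log (1 / δ) ^ 2 * ((Real.sqrt δ)⁻¹ + θ⁻¹) ≤ Q := by
    calc CQ * Real.log (1 / δ) ^ 2 * ((Real.sqrt δ)⁻¹ + θ⁻¹) ≤
        CQ * (4 / a ^ 2 * x ^ (-(2 * a))) * (3 * x ^ (-((2 - e) * (2 / 3)))) := by gcongr
      _ = 12 * CQ / a ^ 2 * (x ^ (-(2 * a)) * x ^ (-((2 - e) * (2 / 3)))) := by
          field_simp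
          ring
      _ = KQ * (x ^ (-(2 * a)) * x ^ (-((2 - e) * (2 / 3)))) := by rw [hKQ]
      _ = Q := by
          rw [← Real.rpow_add hσ, hQ]
          congr 2
  -- the good event
  have hLδ : 1 / (L : ℝ) ≤ δ := by
    rw [div_le_iff₀ hL0]
    calc (1 : ℝ) ≤ x ^ 12 * L := hxL
      _ ≤ δ * L := by
          refine mul_le_mul_of_nonneg_right ?_ hL0.le
          refine le_trans ?_ hδx
          exact pow_le_pow_of_le_one hσ.le hx1 (by norm_num)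
  have hLδ2 : 1 / (L : ℝ) ≤ (δ / 2) ^ 2 := by
    rw [div_le_iff₀ hL0]
    calc (1 : ℝ) ≤ x ^ 12 * L := hxL
      _ ≤ (δ / 2) ^ 2 * L := by
          refine mul_le_mul_of_nonneg_right ?_ hL0.le
          calc x ^ 12 = x ^ 8 * (x ^ 2) ^ 2 := by ring
            _ ≤ (1 / 5) ^ 8 * δ ^ 2 := by gcongr
            _ ≤ (δ / 2) ^ 2 := by
                rw [div_pow]
                nlinarith [sq_nonneg δ]
  have hGB : Pool.Agent.W788.MF2.FormG.GB 2 L δ (1700 * Real.log (1 / δ) ^ 2) :=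
    Pool.Agent.W788.MF2.Dos2d.green2 δ hLδ hδ2
  have hdom : Pool.Agent.W788.MF2.Dom.DomBy Law.μ M :=
    Pool.Agent.W788.MF2.Dom.dom_bdd Law.μ W hW Law.bd Law.mean
  obtain ⟨G0, hG0, hGP, hGf0⟩ := Pool.Agent.W788.MF2.FormG.form1 (d := 2) (L := L)
    Law.μ M hdom E δ (1700 * Real.log (1 / δ) ^ 2) hδ0 hGB τ hτ0 P hP0
  set pb : ℝ := K0 * x ^ (5 * e / 7 * P - 24) with hpb
  have hNN5 : NN 2 L ≤ 2 ^ 2 * x ^ (-24 : ℝ) := by
    unfold NN
    calc (L : ℝ) ^ 2 ≤ (2 * (x ^ 12)⁻¹) ^ 2 := pow_le_pow_left₀ hL0.le hL2 2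
      _ = _ := by
          rw [mul_pow, inv_pow, ← pow_mul]
          congr 1
          rw [Real.rpow_neg hσ.le]
          congr 1
          rw [← Real.rpow_natCast]
          norm_num
  have hPb0 : (Γ (T 2 L)).real G0ᶜ ≤ pb := by
    refine hGP.trans ?_
    have h1 : 2 * P * (1700 * Real.log (1 / δ) ^ 2) * δ⁻¹ * M ^ 2 / τ ^ 2 ≤
        32 * M ^ 2 * P * Kγ * x ^ (5 * e / 7) := by
      have h2 : (τ ^ 2)⁻¹ = 16 * x ^ 2 := by
        rw [hτ]
        field_simp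
        norm_num
      have h3 : δ⁻¹ * x ^ 2 = x ^ e := by
        rw [hδ, ← Real.rpow_neg hσ.le, ← Real.rpow_natCast, ← Real.rpow_add hσ]
        congr 1
        push_cast
        ring
      have h4 : x ^ (-(2 * a)) * x ^ e = x ^ (5 * e / 7) := by
        rw [← Real.rpow_add hσ]
        congr 1
        rw [ha]
        ring
      calc 2 * P * (1700 * Real.log (1 / δ) ^ 2) * δ⁻¹ * M ^ 2 / τ ^ 2 =
          32 * M ^ 2 * P * (1700 * Real.log (1 / δ) ^ 2) * (δ⁻¹ * x ^ 2) := by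
            rw [div_eq_mul_inv, h2]
            ring
        _ ≤ 32 * M ^ 2 * P * (Kγ * x ^ (-(2 * a))) * (δ⁻¹ * x ^ 2) := by gcongr
        _ = 32 * M ^ 2 * P * Kγ * (x ^ (-(2 * a)) * x ^ e) := by rw [h3]; ring
        _ = _ := by rw [h4]
    have h0 : 0 ≤ 2 * P * (1700 * Real.log (1 / δ) ^ 2) * δ⁻¹ * M ^ 2 / τ ^ 2 := by
      positivity
    calc (2 * P * (1700 * Real.log (1 / δ) ^ 2) * δ⁻¹ * M ^ 2 / τ ^ 2) ^ P * NN 2 L ≤
        (32 * M ^ 2 * P * Kγ * x ^ (5 * e / 7)) ^ P * (2 ^ 2 * x ^ (-24 : ℝ)) :=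
          mul_le_mul (pow_le_pow_left₀ h0 h1 P) hNN5 NN_pos.le (by positivity)
      _ = (32 * M ^ 2 * P * Kγ) ^ P * 2 ^ 2 * (x ^ (5 * e / 7 * P) * x ^ (-24 : ℝ)) := by
          rw [mul_pow (32 * M ^ 2 * P * Kγ), ← Real.rpow_natCast (x ^ (5 * e / 7)),
            ← Real.rpow_mul hσ.le]
          ring
      _ = pb := by
          rw [← Real.rpow_add hσ, hpb, sub_eq_add_neg]
  have hpb00 : 0 ≤ pb := by positivity
  set G : Set (T 2 L → ℝ) := G0 ∩ {V | ∀ x, |V x| ≤ Law.b} with hGd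
  have hG : MeasurableSet G := by
    refine hG0.inter ?_
    have : {V : T 2 L → ℝ | ∀ x, |V x| ≤ Law.b} = ⋂ x, {V : T 2 L → ℝ | |V x| ≤ Law.b} := by
      ext V
      simp
    rw [this]
    refine MeasurableSet.iInter fun x => ?_
    exact measurableSet_le (continuous_apply x).measurable.norm measurable_const
  have hPb : (Γ (T 2 L)).real Gᶜ ≤ pb := by
    refine le_trans ?_ hPb0
    have h1 : (Γ (T 2 L)) Gᶜ ≤ (Γ (T 2 L)) G0ᶜ := by
      refine measure_mono_ae ?_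
      filter_upwards [ae_cube (κ := T 2 L)] with V hV hVG
      intro hV0
      exact hVG ⟨hV0, hV⟩
    exact ENNReal.toReal_mono (measure_ne_top _ _) h1
  have hGf : ∀ V ∈ G, ∀ w : T 2 L → ℝ, |∑ x, V x * w x ^ 2| ≤ τ * q (J E δ) w :=
    fun V hV => hGf0 V hV.1
  have hGc : ∀ V ∈ G, ∀ x, |V x| ≤ Law.b := fun V hV => hV.2
  have hγ0 : 0 < Kγ * x ^ (-(2 * a)) := by positivity
  have hδt : δ / t ≤ x ^ (-e - κ) := by
    rw [div_le_iff₀ ht]
    have h1 : δ = x ^ (-e - κ) * x ^ (2 + κ) := by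
      rw [hδ, ← Real.rpow_add hσ]
      congr 1
      ring
    rw [h1]
    exact mul_le_mul_of_nonneg_left htl (by positivity)
  have hBb : 6 * (Kγ * x ^ (-(2 * a))) * δ / t ≤ 6 * Kγ * x ^ (-(2 * a) - e - κ) := by
    have h1 : x ^ (-(2 * a) - e - κ) = x ^ (-(2 * a)) * x ^ (-e - κ) := by
      rw [← Real.rpow_add hσ]
      congr 1
      ring
    rw [h1, mul_div_assoc]
    calc 6 * (Kγ * x ^ (-(2 * a))) * (δ / t) ≤ 6 * (Kγ * x ^ (-(2 * a))) * x ^ (-e - κ) := by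
          gcongr
      _ = _ := by ring
  have H : Hyp 2 L σ E t δ θ τ Q (Kγ * x ^ (-(2 * a))) pb G := by
    have htδ : t ≤ δ := by
      rw [hσx] at htu
      exact htu.trans hδx
    refine ⟨ht, htδ.trans hδ1, hx1, htδ, hτ0.le, ?_, ?_, hQ0.le, hγ0, ?_, ?_, hG, hPb, hGf, hGc⟩
    · rw [← hx, ← hWd, mul_add]
      have h1 : x * τ = 1 / 4 := by
        rw [hτ]
        field_simp
      have h2 : x * (W * (Kγ * x ^ (-(2 * a)))) = W * Kγ * x ^ (1 - 2 * a) := by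
        rw [sub_eq_add_neg, Real.rpow_add hσ, Real.rpow_one]
        ring
      rw [h1, h2]
      linarith [H7 x hσ hxs7]
    · rw [← hx, ← hWd]
      have h2 : x * (W * (6 * Kγ * x ^ (-(2 * a) - e - κ))) =
          6 * W * Kγ * x ^ (1 - 2 * a - e - κ) := by
        have h3 : x ^ (1 - 2 * a - e - κ) = x * x ^ (-(2 * a) - e - κ) := by
          conv_rhs => rw [← Real.rpow_one x]
          rw [Real.rpow_one x, ← Real.rpow_one_add' hσ.le]
          · congr 1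
            ring
          · have : 0 < 1 + (-(2 * a) - e - κ) := by
              rw [ha]
              linarith
            exact this.ne'
        rw [h3]
        ring
      calc x * (W * (6 * (Kγ * x ^ (-(2 * a))) * δ / t)) ≤
          x * (W * (6 * Kγ * x ^ (-(2 * a) - e - κ))) := by gcongr
        _ = _ := h2
        _ ≤ 1 / 2 := H8 x hσ hxs8
    · intro p hp
      have h1 := Pool.Agent.TH311.AN2.qb2 ka hka hka1 hodd θ δ E hθ0 hδ0 hδ2 hLδ2 hE.1 hE.2 p hp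
      refine le_trans h1 ?_
      exact mul_le_mul_of_nonneg_right hQb NN_pos.le
    · exact (hGB E).trans hgg
  -- the density of low momenta
  have hlow : lw 2 L θ ≤ 2 * x ^ ((2 - e) * (4 / 3)) := by
    have h1 := s_low 2 L θ hθ0.le hθ1 ?_
    · unfold lw
      rw [inv_mul_le_iff₀ NN_pos]
      refine h1.trans (le_of_eq ?_)
      have h2 : (2 * θ) ^ 2 = x ^ ((2 - e) * (4 / 3)) := by
        have h3 : 2 * θ = δ ^ (2 / 3 : ℝ) := by rw [hθ]; ring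
        rw [h3, hδ, ← Real.rpow_natCast, ← Real.rpow_mul hσ.le, ← Real.rpow_mul hσ.le]
        congr 1
        push_cast
        ring
      rw [h2]
      ring
    · have h2 : x ^ 12 ≤ 1 / 2 * x ^ 2 := by
        have h3 : x ^ 12 = x ^ 10 * x ^ 2 := by ring
        rw [h3]
        refine mul_le_mul_of_nonneg_right ?_ (by positivity)
        calc x ^ 10 ≤ x ^ 1 := pow_le_pow_of_le_one hσ.le hx1 (by norm_num)
          _ ≤ 1 / 2 := by rw [pow_one]; linarith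
      calc (1 : ℝ) ≤ x ^ 12 * L := hxL
        _ ≤ θ * L := mul_le_mul_of_nonneg_right (h2.trans hθx) hL0.le
  have hlw0 := lw_nonneg (d := 2) (L := L) θ
  -- the ratio
  set r : ℝ := t / σ ^ 2 with hr
  have hσ2 : 0 < σ ^ 2 := by rw [hσx]; positivity
  have hr0 : 0 < r := by positivity
  have hr1 : r ≤ 1 := by
    rw [hr, div_le_one hσ2]
    exact htu
  have hrx : x ^ κ ≤ r := by
    rw [hr, le_div_iff₀ hσ2, hσx, ← Real.rpow_natCast, ← Real.rpow_add hσ]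
    refine le_trans (le_of_eq ?_) htl
    congr 1
    push_cast
    ring
  have hr3 : x ^ (3 * κ) ≤ r ^ 3 := by
    calc x ^ (3 * κ) = (x ^ κ) ^ 3 := by
          rw [← Real.rpow_natCast, ← Real.rpow_mul hσ.le]
          congr 1
          push_cast
          ring
      _ ≤ r ^ 3 := pow_le_pow_left₀ (by positivity) hrx 3
  have ht4 : x ^ (4 * (2 + κ)) ≤ t ^ 4 := by
    calc x ^ (4 * (2 + κ)) = (x ^ (2 + κ)) ^ 4 := by
          rw [← Real.rpow_natCast, ← Real.rpow_mul hσ.le]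
          congr 1
          push_cast
          ring
      _ ≤ t ^ 4 := pow_le_pow_left₀ (by positivity) htl 4
  have ht5 : x ^ (5 * (2 + κ)) ≤ t ^ 5 := by
    calc x ^ (5 * (2 + κ)) = (x ^ (2 + κ)) ^ 5 := by
          rw [← Real.rpow_natCast, ← Real.rpow_mul hσ.le]
          congr 1
          push_cast
          ring
      _ ≤ t ^ 5 := pow_le_pow_left₀ (by positivity) htl 5
  have hXX := sq_nonneg (mm 2 L σ E t).im
  -- the first coefficient
  have hα2 : 14 * (72 * (σ ^ 2 * Law.b ^ 2) * (48 * Q * δ ^ 2 + lw 2 L θ) * (t ^ 2)⁻¹) ≤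
      ε / 4 * x ^ β * r ^ 3 := by
    rw [← hWd]
    have h1 : Q * δ ^ 2 = KQ * x ^ ((2 - e) * (4 / 3) - 2 * a) := by
      rw [hQ, hδ, ← Real.rpow_natCast (x ^ (2 - e)), ← Real.rpow_mul hσ.le, mul_assoc,
        ← Real.rpow_add hσ]
      congr 2
      push_cast
      ring
    have h2 : x ^ ((2 - e) * (4 / 3)) ≤ x ^ ((2 - e) * (4 / 3) - 2 * a) :=
      pow_cmp hσ hx1 (by linarith)
    have h3 : 48 * Q * δ ^ 2 + lw 2 L θ ≤ (48 * KQ + 2) * x ^ ((2 - e) * (4 / 3) - 2 * a) := by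
      calc 48 * Q * δ ^ 2 + lw 2 L θ = 48 * (Q * δ ^ 2) + lw 2 L θ := by ring
        _ ≤ 48 * (KQ * x ^ ((2 - e) * (4 / 3) - 2 * a)) +
            2 * x ^ ((2 - e) * (4 / 3) - 2 * a) := by
            rw [h1]
            linarith
        _ = _ := by ring
    have h4 := H1 x hσ hxs1
    have h5 : x ^ (8 + (2 - e) * (4 / 3) - 2 * a) =
        x ^ 8 * x ^ ((2 - e) * (4 / 3) - 2 * a) := by
      rw [← Real.rpow_natCast, ← Real.rpow_add hσ]
      congr 1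
      push_cast
      ring
    have h6 : ε / 4 * x ^ β * r ^ 3 = ε / 4 * x ^ β * t ^ 5 / (x ^ 6 * t ^ 2) := by
      rw [hr, hσx]
      field_simp
    have h7 : x ^ (5 * (2 + κ) + β) = x ^ (5 * (2 + κ)) * x ^ β := Real.rpow_add hσ _ _
    rw [h6, le_div_iff₀ (by positivity)]
    calc 14 * (72 * (σ ^ 2 * W ^ 2) * (48 * Q * δ ^ 2 + lw 2 L θ) * (t ^ 2)⁻¹) *
          (x ^ 6 * t ^ 2) =
        14 * (72 * W ^ 2 * x ^ 8 * (48 * Q * δ ^ 2 + lw 2 L θ)) := by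
          rw [hσx]
          field_simp
      _ ≤ 14 * (72 * W ^ 2 * x ^ 8 *
          ((48 * KQ + 2) * x ^ ((2 - e) * (4 / 3) - 2 * a))) := by gcongr
      _ = 14 * (72 * W ^ 2 * (48 * KQ + 2)) * x ^ (8 + (2 - e) * (4 / 3) - 2 * a) := by
          rw [h5]
          ring
      _ ≤ ε / 4 * x ^ (5 * (2 + κ) + β) := h4
      _ = ε / 4 * x ^ β * x ^ (5 * (2 + κ)) := by
          rw [h7]
          ring
      _ ≤ ε / 4 * x ^ β * t ^ 5 := by gcongr
  -- the second coefficient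
  have hβ2 : 14 * (36 * (σ ^ 2 * Law.b ^ 2) * (32 * Q * (Kγ * x ^ (-(2 * a))) ^ 2)) ≤
      ε / 4 * x ^ β * r ^ 3 := by
    rw [← hWd]
    have h1 : x ^ 2 * (Q * (Kγ * x ^ (-(2 * a))) ^ 2) =
        KQ * Kγ ^ 2 * x ^ (2 - 6 * a - (2 - e) * (2 / 3)) := by
      rw [hQ, mul_pow, ← Real.rpow_natCast (x ^ (-(2 * a))), ← Real.rpow_mul hσ.le,
        ← Real.rpow_natCast x]
      have h2 : x ^ (2 - 6 * a - (2 - e) * (2 / 3)) = x ^ ((2 : ℕ) : ℝ) *
          (x ^ (-(2 * a) - (2 - e) * (2 / 3)) * x ^ (-(2 * a) * ((2 : ℕ) : ℝ))) := by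
        rw [← Real.rpow_add hσ, ← Real.rpow_add hσ]
        congr 1
        push_cast
        ring
      rw [h2]
      ring
    calc 14 * (36 * (σ ^ 2 * W ^ 2) * (32 * Q * (Kγ * x ^ (-(2 * a))) ^ 2)) =
        14 * (36 * 32) * W ^ 2 * (x ^ 2 * (Q * (Kγ * x ^ (-(2 * a))) ^ 2)) := by
          rw [hσx]
          ring
      _ = 14 * (36 * 32) * W ^ 2 * KQ * Kγ ^ 2 * x ^ (2 - 6 * a - (2 - e) * (2 / 3)) := by
          rw [h1]
          ring
      _ ≤ ε / 4 * x ^ (3 * κ + β) := H2 x hσ hxs2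
      _ = ε / 4 * x ^ β * x ^ (3 * κ) := by
          rw [Real.rpow_add hσ]
          ring
      _ ≤ ε / 4 * x ^ β * r ^ 3 := by gcongr
  -- the probability of the bad event
  have hβ3 : 14 * (4 * NN 2 L * (t ^ 2)⁻¹ * pb) ≤ ε / 4 * x ^ β * r ^ 3 := by
    have ht2 : (t ^ 2)⁻¹ ≤ x ^ (-(2 * (2 + κ))) := by
      rw [Real.rpow_neg hσ.le]
      refine inv_anti₀ (by positivity) ?_
      calc x ^ (2 * (2 + κ)) = (x ^ (2 + κ)) ^ 2 := by
            rw [← Real.rpow_natCast, ← Real.rpow_mul hσ.le]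
            congr 1
            push_cast
            ring
        _ ≤ t ^ 2 := pow_le_pow_left₀ (by positivity) htl 2
    have h6 : x ^ (-24 - 2 * (2 + κ) + (5 * e / 7 * P - 24)) =
        x ^ (-24 : ℝ) * (x ^ (-(2 * (2 + κ))) * x ^ (5 * e / 7 * P - 24)) := by
      rw [← Real.rpow_add hσ, ← Real.rpow_add hσ]
      congr 1
      ring
    calc 14 * (4 * NN 2 L * (t ^ 2)⁻¹ * pb) ≤
        14 * (4 * (2 ^ 2 * x ^ (-24 : ℝ)) * x ^ (-(2 * (2 + κ))) * pb) := by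
          have := NN_pos (d := 2) (L := L)
          gcongr
      _ = 56 * 2 ^ 2 * K0 * x ^ (-24 - 2 * (2 + κ) + (5 * e / 7 * P - 24)) := by
          rw [h6, hpb]
          ring
      _ ≤ ε / 4 * x ^ (3 * κ + β) := H3 x hσ hxs3
      _ = ε / 4 * x ^ β * x ^ (3 * κ) := by
          rw [Real.rpow_add hσ]
          ring
      _ ≤ ε / 4 * x ^ β * r ^ 3 := by gcongr
  -- the third order terms
  have hρ2 : 4 * (σ ^ 2 * Bρ (Kγ * x ^ (-(2 * a))) δ t ^ 2) ≤ ε / 4 * x ^ β * r ^ 3 := by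
    have h1 : 1 + 6 * (Kγ * x ^ (-(2 * a))) * δ / t ≤ (1 + 6 * Kγ) * x ^ (-(2 * a) - e - κ) := by
      have h2 : (1 : ℝ) ≤ x ^ (-(2 * a) - e - κ) :=
        Real.one_le_rpow_of_pos_of_le_one_of_nonpos hσ hx1 (by linarith)
      calc 1 + 6 * (Kγ * x ^ (-(2 * a))) * δ / t ≤
          x ^ (-(2 * a) - e - κ) + 6 * Kγ * x ^ (-(2 * a) - e - κ) := add_le_add h2 hBb
        _ = _ := by ring
    have h0 : 0 ≤ 1 + 6 * (Kγ * x ^ (-(2 * a))) * δ / t := by positivity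
    have h2 : Bρ (Kγ * x ^ (-(2 * a))) δ t ≤ Kρ * x ^ (-(4 * a + 2 * e + 2 * κ)) := by
      unfold Bρ
      rw [← hWd]
      have h3 : x ^ (-(4 * a + 2 * e + 2 * κ)) = (x ^ (-(2 * a) - e - κ)) ^ 2 := by
        rw [← Real.rpow_natCast, ← Real.rpow_mul hσ.le]
        congr 1
        push_cast
        ring
      rw [h3, hKρ]
      calc (5 * W ^ 3 + 7 * W) * (1 + 6 * (Kγ * x ^ (-(2 * a))) * δ / t) ^ 2 ≤
          (5 * W ^ 3 + 7 * W) * ((1 + 6 * Kγ) * x ^ (-(2 * a) - e - κ)) ^ 2 := by gcongr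
        _ = _ := by ring
    have h3 : 0 ≤ Bρ (Kγ * x ^ (-(2 * a))) δ t := by
      unfold Bρ
      rw [← hWd]
      positivity
    have h4 : x ^ (2 - 2 * (4 * a + 2 * e + 2 * κ)) =
        x ^ 2 * (x ^ (-(4 * a + 2 * e + 2 * κ))) ^ 2 := by
      rw [← Real.rpow_natCast (x ^ (-(4 * a + 2 * e + 2 * κ))), ← Real.rpow_mul hσ.le,
        ← Real.rpow_natCast x, ← Real.rpow_add hσ]
      congr 1
      push_cast
      ring
    calc 4 * (σ ^ 2 * Bρ (Kγ * x ^ (-(2 * a))) δ t ^ 2) ≤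
        4 * (σ ^ 2 * (Kρ * x ^ (-(4 * a + 2 * e + 2 * κ))) ^ 2) := by gcongr
      _ = 4 * Kρ ^ 2 * x ^ (2 - 2 * (4 * a + 2 * e + 2 * κ)) := by
          rw [h4, hσx]
          ring
      _ ≤ ε / 4 * x ^ (3 * κ + β) := H5 x hσ hxs5
      _ = ε / 4 * x ^ β * x ^ (3 * κ) := by
          rw [Real.rpow_add hσ]
          ring
      _ ≤ ε / 4 * x ^ β * r ^ 3 := by gcongr
  have hβ4 : 2 * σ ^ 2 * (Kc t * t⁻¹) ^ 2 * pb ≤ ε / 4 * x ^ β * r ^ 3 := by
    have ht10 : (t⁻¹) ^ 10 ≤ x ^ (-(10 * (2 + κ))) := by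
      rw [inv_pow, Real.rpow_neg hσ.le]
      refine inv_anti₀ (by positivity) ?_
      calc x ^ (10 * (2 + κ)) = (x ^ (2 + κ)) ^ 10 := by
            rw [← Real.rpow_natCast, ← Real.rpow_mul hσ.le]
            congr 1
            push_cast
            ring
        _ ≤ t ^ 10 := pow_le_pow_left₀ (by positivity) htl 10
    have h6 : x ^ (2 - 10 * (2 + κ) + (5 * e / 7 * P - 24)) =
        x ^ 2 * (x ^ (-(10 * (2 + κ))) * x ^ (5 * e / 7 * P - 24)) := by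
      rw [← Real.rpow_natCast x, ← Real.rpow_add hσ, ← Real.rpow_add hσ]
      congr 1
      push_cast
      ring
    have h7 : 2 * σ ^ 2 * (Kc t * t⁻¹) ^ 2 * pb =
        2 * (10 * (1 + W) ^ 5) ^ 2 * (x ^ 2 * ((t⁻¹) ^ 10 * pb)) := by
      unfold Kc
      rw [← hWd, hσx]
      ring
    rw [h7]
    calc 2 * (10 * (1 + W) ^ 5) ^ 2 * (x ^ 2 * ((t⁻¹) ^ 10 * pb)) ≤
        2 * (10 * (1 + W) ^ 5) ^ 2 * (x ^ 2 * (x ^ (-(10 * (2 + κ))) * pb)) := by gcongr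
      _ = 2 * (10 * (1 + W) ^ 5) ^ 2 * K0 *
          x ^ (2 - 10 * (2 + κ) + (5 * e / 7 * P - 24)) := by
          rw [h6, hpb]
          ring
      _ ≤ ε / 4 * x ^ (3 * κ + β) := H6 x hσ hxs6
      _ = ε / 4 * x ^ β * x ^ (3 * κ) := by
          rw [Real.rpow_add hσ]
          ring
      _ ≤ ε / 4 * x ^ β * r ^ 3 := by gcongr
  have hr31 : ε * x ^ β * r ^ 3 ≤ 1 := by
    have h1 := pow_le_one₀ (n := 3) hr0.le hr1
    have h2 : ε * x ^ β ≤ 1 := by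
      calc ε * x ^ β ≤ 1 * 1 := mul_le_mul hε1 hxβ1 hxβ0.le (by norm_num)
        _ = 1 := one_mul 1
    calc ε * x ^ β * r ^ 3 ≤ 1 * 1 := mul_le_mul h2 h1 (by positivity) (by norm_num)
      _ = 1 := one_mul 1
  have hα1 : 72 * (σ ^ 2 * Law.b ^ 2) * (48 * Q * δ ^ 2 + lw 2 L θ) * (t ^ 2)⁻¹ ≤ 1 / 2 := by
    linarith
  have hρ1 : σ ^ 2 * Bρ (Kγ * x ^ (-(2 * a))) δ t ^ 2 ≤ 1 := by linarith
  obtain ⟨Λ, hΛ0, hΛ1, hΛ2, hΛ3⟩ := variances H hα1 hρ1
  have hfin : Λ ≤ ε * x ^ β * r ^ 3 * (1 + (mm 2 L σ E t).im ^ 2) := by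
    have h1 := mul_le_mul_of_nonneg_right hα2 hXX
    have h2 := mul_le_mul_of_nonneg_right hρ2
      (show 0 ≤ 1 + (mm 2 L σ E t).im ^ 2 by linarith)
    have h3 : 0 ≤ ε * x ^ β * r ^ 3 * (mm 2 L σ E t).im ^ 2 := by positivity
    linarith
  refine ⟨hΛ1.trans hfin, fun p => ?_⟩
  calc t ^ 2 * V2 σ E t p ≤ t ^ 2 * ((t ^ 2)⁻¹ * Λ) := by
        refine mul_le_mul_of_nonneg_left (hΛ2 p) (by positivity)
    _ = Λ := by field_simp
    _ ≤ _ := hfin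

end Run7.h108.GL.D2
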