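import Pool.Agent.Run7.h442.T3.Few
import Pool.Agent.Run7.h442.T2.Spr2

/-! Bounded laws: Most eigenvectors on the two-dimensional torus are spread out. -/

set_option autoImplicit false
set_option linter.unusedSectionVars false

open scoped BigOperators Matrix Topology
open MeasureTheory ProbabilityTheory

namespace Run7.h108.GL.D2

open Pool.Agent.Run7.h47 hiding Hyp good
  HJ_bd HS_bd J_comp K1 S_comp Sw_int apr bessel dos_lim err_le free0 free1 free1_im free2
  inst kap_ex kap_le lad mJ mJ_bd mJ_pos mJ_unif mS_bd mS_cont mS_pos mS_unif num_lim par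
  qdiff rho_lim size_ex spread tor_all tor_lim vel_lim w_lim z_lim
open Pool.Agent.Run7.h442.T2
open Pool.Agent.W788.MFP.Four Pool.Agent.W788.BK

variable [Law]

open Classical in
/-- **most eigenvectors are spread out** -/
theorem spread (b : ℝ) (hb : b < 31 / 15) (ε : ℝ) (hε : 0 < ε) :
    ∃ s : ℝ, 0 < s ∧ ∀ σ : ℝ, 0 < |σ| → |σ| ≤ s → ∀ (L : ℕ) [NeZero L], (|σ| ^ 12)⁻¹ ≤ (L : ℝ) →
      ∃ S : Set (T 2 L → ℝ), MeasurableSet S ∧ 1 - ε ≤ (Γ (T 2 L)).real S ∧
        ∀ V ∈ S, ∀ (ι : Type) [Fintype ι] (u : ι → EuclideanSpace ℂ (T 2 L)) (lam : ι → ℝ),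
          Orthonormal ℂ u → (∀ j, IsEig σ (lam j) V (u j)) →
          (∀ j, ∃ (i : Fin 2) (c : ZMod L), ε ≤
            ∑ x ∈ Finset.univ.filter fun x => InSlab (|σ| ^ (-b)) i c x, ‖u j x‖ ^ 2) →
          (Fintype.card ι : ℝ) ≤ ε * (L : ℝ) ^ 2 := by
  obtain ⟨r, hrd⟩ : ∃ r : ℝ, r = min (1 / 2) ((ε / 4992) ^ 2) := ⟨_, rfl⟩
  have hr : 0 < r := by rw [hrd]; positivity
  have hr1 : r ≤ 1 / 2 := by rw [hrd]; exact min_le_left _ _
  have hrs : 1248 * Real.sqrt r ≤ ε / 4 := by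
    have h1 : Real.sqrt r ≤ ε / 4992 := by
      rw [Real.sqrt_le_left (by positivity), hrd]
      exact min_le_right _ _
    linarith
  obtain ⟨s1, hs1, H1⟩ := spread_bulk (r / 2) (4 - r / 2) (by positivity) (by linarith)
    (by linarith) b hb (ε / 2) (by positivity)
  refine ⟨min (min s1 1) (min r (ε * r / 8)), by positivity, ?_⟩
  intro σ hσ hσs L _ hL
  have hx1 : |σ| ≤ s1 := hσs.trans ((min_le_left _ _).trans (min_le_left _ _))
  have hx2 : |σ| ≤ 1 := hσs.trans ((min_le_left _ _).trans (min_le_right _ _))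
  have hx3 : |σ| ≤ r := hσs.trans ((min_le_right _ _).trans (min_le_left _ _))
  have hx4 : |σ| ≤ ε * r / 8 := hσs.trans ((min_le_right _ _).trans (min_le_right _ _))
  have hLR : (0 : ℝ) < L := by exact_mod_cast Nat.pos_of_ne_zero (NeZero.ne L)
  have hN := NN_pos (d := 2) (L := L)
  have hLr : 1 / (L : ℝ) ≤ r := by
    have h1 : (L : ℝ)⁻¹ ≤ |σ| ^ 12 := by
      rw [inv_le_comm₀ hLR (by positivity)]
      exact hL
    have h2 : |σ| ^ 12 ≤ |σ| ^ 1 := pow_le_pow_of_le_one hσ.le hx2 (by norm_num)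
    rw [pow_one] at h2
    rw [one_div]
    linarith
  obtain ⟨S1, hS1, hP1, hB⟩ := H1 σ hσ hx1 L hL
  obtain ⟨Q, hQ⟩ : ∃ Q : Set (T 2 L → ℝ), Q = {V | 4 / ε * NN 2 L ≤ ∑ x, V x ^ 2} := ⟨_, rfl⟩
  have hmeas : Measurable fun V : T 2 L → ℝ => ∑ x, V x ^ 2 := by fun_prop
  have hQm : MeasurableSet Q := by
    rw [hQ]
    exact measurableSet_le measurable_const hmeas
  have hPQ : (Γ (T 2 L)).real Q ≤ ε / 4 := by
    have h1 := mul_meas_ge_le_integral_of_nonneg (μ := Γ (T 2 L))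
      (f := fun V : T 2 L → ℝ => ∑ x, V x ^ 2)
      (Filter.Eventually.of_forall fun V => Finset.sum_nonneg fun _ _ => sq_nonneg _)
      sq_mean.1 (4 / ε * NN 2 L)
    rw [sq_mean.2] at h1
    have h2 : 4 / ε * NN 2 L * (Γ (T 2 L)).real Q ≤ NN 2 L := by
      rw [hQ]
      exact h1
    have h3 : (4 / ε * NN 2 L) * (Γ (T 2 L)).real Q ≤ (4 / ε * NN 2 L) * (ε / 4) := by
      refine h2.trans (le_of_eq ?_)
      field_simp
    exact le_of_mul_le_mul_left h3 (by positivity)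
  refine ⟨S1 ∩ Qᶜ, hS1.inter hQm.compl, ?_, ?_⟩
  · have h1 : S1 ⊆ (S1 ∩ Qᶜ) ∪ Q := by
      intro V hV
      by_cases h : V ∈ Q
      · exact Or.inr h
      · exact Or.inl ⟨hV, h⟩
    have h2 : (Γ (T 2 L)).real S1 ≤ (Γ (T 2 L)).real (S1 ∩ Qᶜ) + (Γ (T 2 L)).real Q :=
      (measureReal_mono h1).trans (measureReal_union_le _ _)
    linarith
  · intro V hV ι _ u lam hu heig hmass
    have hVQ : ∑ x, V x ^ 2 ≤ 4 / ε * NN 2 L := by
      have h1 : V ∉ Q := hV.2
      rw [hQ, Set.mem_ofPred_eq, not_le] at h1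
      exact h1.le
    obtain ⟨p, hp⟩ : ∃ p : ι → Prop, ∀ j, p j ↔ (r / 2 ≤ |lam j| ∧ |lam j| ≤ 4 - r / 2) :=
      ⟨fun j => r / 2 ≤ |lam j| ∧ |lam j| ≤ 4 - r / 2, fun _ => Iff.rfl⟩
    -- the bulk
    have hbulk : (Fintype.card {j // p j} : ℝ) ≤ ε / 2 * (L : ℝ) ^ 2 := by
      refine hB V hV.1 {j // p j} (fun j => u j.1) (fun j => lam j.1)
        (hu.comp _ Subtype.val_injective) (fun j => heig j.1) (fun j => ?_) (fun j => ?_)
        (fun j => ?_)
      · exact ((hp j.1).1 j.2).1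
      · exact ((hp j.1).1 j.2).2
      · obtain ⟨i, c, hic⟩ := hmass j.1
        exact ⟨i, c, le_trans (by linarith) hic⟩
    -- the other energies
    have hbad : (Fintype.card {j // ¬ p j} : ℝ) ≤ ε / 2 * (L : ℝ) ^ 2 := by
      have h1 := few (u := fun j : {j // ¬ p j} => u j.1) (hu.comp _ Subtype.val_injective)
        (σ := σ) (α := r / 2) (lam := fun j => lam j.1) (V := V) (fun j => heig j.1)
        (by positivity) (Finset.univ.filter fun k : T 2 L => |adj k| ≤ r ∨ 4 - r ≤ |adj k|)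
        (fun j k hk => by
          have h2 : ¬ (r / 2 ≤ |lam j.1| ∧ |lam j.1| ≤ 4 - r / 2) := fun h3 =>
            j.2 ((hp j.1).2 h3)
          simp only [not_and_or, not_le] at h2
          simp only [Finset.mem_filter, Finset.mem_univ, true_and, not_or, not_le] at hk
          rcases h2 with h2 | h2
          · have h3 := abs_sub_abs_le_abs_sub (adj k) (lam j.1)
            linarith [hk.1]
          · have h3 := abs_sub_abs_le_abs_sub (lam j.1) (adj k)
            rw [abs_sub_comm] at h3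
            linarith [hk.2])
      have h2 := crit_card hr hr1 hLr
      have h3 : σ ^ 2 ≤ (ε * r / 8) ^ 2 := by
        rw [← sq_abs]
        exact pow_le_pow_left₀ hσ.le hx4 2
      have h4 : σ ^ 2 * ∑ x, V x ^ 2 ≤ (r / 2) ^ 2 * (ε / 4 * NN 2 L) := by
        calc σ ^ 2 * ∑ x, V x ^ 2 ≤ (ε * r / 8) ^ 2 * (4 / ε * NN 2 L) := by
              have : 0 ≤ ∑ x, V x ^ 2 := Finset.sum_nonneg fun _ _ => sq_nonneg _
              gcongr
          _ = _ := by
              field_simp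
              norm_num
      have h5 := le_of_mul_le_mul_left (h1.trans h4) (by positivity : 0 < (r / 2) ^ 2)
      have h6 : 1248 * Real.sqrt r * NN 2 L ≤ ε / 4 * NN 2 L := by gcongr
      have h7 : ε / 2 * (L : ℝ) ^ 2 = ε / 4 * NN 2 L + ε / 4 * NN 2 L := by
        unfold NN
        ring
      rw [h7]
      linarith
    have hcard : Fintype.card ι = Fintype.card {j // p j} + Fintype.card {j // ¬ p j} := by
      rw [← Fintype.card_sum]
      exact (Fintype.card_congr (Equiv.sumCompl p)).symm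
    rw [hcard]
    push_cast
    linarith

end Run7.h108.GL.D2
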